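import Mathlib
import Pool.Agent.H39.Q1.Chain
import Pool.Agent.H59.Q1.MassLink

set_option autoImplicit false
open Finset

/-! # Weights of classes and random marks

`q e` : probability that the element `e` is marked. `Uc S P` : the members of the disjoint family `S` without
marks. `sum_ge2_le`, `sum_pair_eq`, `chErr_le` : the error of the first order expansion is bounded by moments
of the number of classes without marks. -/

namespace Pool.Agent.H39.R45

open Pool.Agent.H75.Perc Pool.Agent.H75.TwoArm Pool.Agent.H75.Four Pool.Agent.H49.Perc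
open Pool.Agent.H99.NC Pool.Agent.H39.Q1

variable {α : Type*} [DecidableEq α]

/-- members of `S` without marks -/
noncomputable def Uc (S : Finset (Finset α)) (P : Finset α) : Finset (Finset α) :=
  S.filter fun k => Disjoint P k

variable {q : α → ℝ} {T P k : Finset α} {S A J C : Finset (Finset α)}

lemma mem_Uc : k ∈ Uc S P ↔ k ∈ S ∧ Disjoint P k := by
  unfold Uc; rw [mem_filter]

lemma Uc_mono (h : A ⊆ S) : Uc A P ⊆ Uc S P := filter_subset_filter _ h

/-- probability that no member of `A` has a mark -/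
lemma Ex_unt (hT : ∀ k ∈ A, k ⊆ T) (hd : (A : Set (Finset α)).PairwiseDisjoint id) :
    Ex q T (fun P => ind (∀ k ∈ A, Disjoint P k)) = ∏ k ∈ A, ∏ e ∈ k, (1 - q e) := by
  have h1 : A.biUnion id ⊆ T := by
    intro l hl
    obtain ⟨k, hk, hl⟩ := mem_biUnion.1 hl
    exact hT k hk hl
  have h2 := Pool.Agent.H59.Q1.PrP_avoid (q := q) h1
  rw [prod_biUnion hd] at h2
  simp only [id] at h2
  rw [← h2]
  unfold PrP
  refine Ex_congr fun P _ => ind_congr ?_
  show (∀ k ∈ A, Disjoint P k) ↔ P ∩ A.biUnion id = ∅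
  rw [eq_empty_iff_forall_notMem]
  constructor
  · intro h l hl
    obtain ⟨g1, g2⟩ := mem_inter.1 hl
    obtain ⟨k, hk, g3⟩ := mem_biUnion.1 g2
    exact disjoint_left.1 (h k hk) g1 g3
  · intro h k hk
    rw [disjoint_left]
    intro l g1 g2
    exact h l (mem_inter.2 ⟨g1, mem_biUnion.2 ⟨k, hk, g2⟩⟩)

omit [DecidableEq α] in
lemma sum_two_pow (s : Finset (Finset α)) :
    ∑ A ∈ s.powerset, (2 : ℝ) ^ A.card = 3 ^ s.card := by
  have h := Finset.sum_pow_mul_eq_add_pow (2 : ℝ) 1 s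
  simp only [one_pow, mul_one] at h
  rw [h]
  norm_num

lemma ge2_pt (S : Finset (Finset α)) (P : Finset α) :
    ∑ A ∈ S.powerset with 2 ≤ A.card, (2 : ℝ) ^ A.card * ind (∀ k ∈ A, Disjoint P k) ≤
      3 ^ (Uc S P).card * ind (2 ≤ (Uc S P).card) := by
  have h1 : ∑ A ∈ S.powerset with 2 ≤ A.card, (2 : ℝ) ^ A.card * ind (∀ k ∈ A, Disjoint P k) =
      ∑ A ∈ (Uc S P).powerset with 2 ≤ A.card, (2 : ℝ) ^ A.card := by
    have hs : ((Uc S P).powerset.filter fun A => 2 ≤ A.card) ⊆
        (S.powerset.filter fun A => 2 ≤ A.card) := by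
      intro A hA
      obtain ⟨g1, g2⟩ := mem_filter.1 hA
      exact mem_filter.2 ⟨mem_powerset.2 ((mem_powerset.1 g1).trans (filter_subset _ _)), g2⟩
    rw [← sum_subset hs]
    · refine sum_congr rfl fun A hA => ?_
      have g1 := mem_powerset.1 (mem_filter.1 hA).1
      rw [ind_true (fun k hk => (mem_Uc.1 (g1 hk)).2), mul_one]
    · intro A hA hA'
      rw [ind_false, mul_zero]
      intro h
      obtain ⟨g1, g2⟩ := mem_filter.1 hA
      exact hA' (mem_filter.2 ⟨mem_powerset.2 fun k hk => mem_Uc.2 ⟨mem_powerset.1 g1 hk, h k hk⟩,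
        g2⟩)
  rw [h1]
  by_cases h2 : 2 ≤ (Uc S P).card
  · rw [ind_true h2, mul_one, ← sum_two_pow]
    exact sum_le_sum_of_subset_of_nonneg (filter_subset _ _) fun _ _ _ => by positivity
  · rw [ind_false h2, mul_zero]
    refine le_of_eq (sum_eq_zero fun A hA => ?_)
    obtain ⟨g1, g2⟩ := mem_filter.1 hA
    exact absurd (g2.trans (card_le_card (mem_powerset.1 g1))) h2

/-- **sets of at least two classes** -/
theorem sum_ge2_le (hq : Pb q) (hT : ∀ k ∈ S, k ⊆ T)
    (hd : (S : Set (Finset α)).PairwiseDisjoint id) {w : Finset α → ℝ} (hw0 : ∀ k ∈ S, 0 ≤ w k)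
    (hw : ∀ k ∈ S, w k ≤ ∏ e ∈ k, (1 - q e)) :
    ∑ A ∈ S.powerset with 2 ≤ A.card, ∏ k ∈ A, (2 * w k) ≤
      Ex q T (fun P => 3 ^ (Uc S P).card * ind (2 ≤ (Uc S P).card)) := by
  have h1 : ∀ A ∈ S.powerset.filter (fun A => 2 ≤ A.card), ∏ k ∈ A, (2 * w k) ≤
      Ex q T (fun P => (2 : ℝ) ^ A.card * ind (∀ k ∈ A, Disjoint P k)) := by
    intro A hA
    have hAS := mem_powerset.1 (mem_filter.1 hA).1
    rw [Ex_smul, Ex_unt (fun k hk => hT k (hAS hk)) (hd.subset (coe_subset.2 hAS)),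
      prod_mul_distrib, prod_const]
    refine mul_le_mul_of_nonneg_left ?_ (by positivity)
    exact prod_le_prod (fun k hk => hw0 k (hAS hk)) fun k hk => hw k (hAS hk)
  refine (sum_le_sum h1).trans ?_
  rw [← Ex_sum]
  exact Ex_mono hq fun P _ => ge2_pt S P

/-- **pairs of classes** -/
theorem sum_pair_le (hT : ∀ k ∈ S, k ⊆ T)
    (hd : (S : Set (Finset α)).PairwiseDisjoint id) {w : Finset α → ℝ} (hw0 : ∀ k ∈ S, 0 ≤ w k)
    (hw : ∀ k ∈ S, w k ≤ ∏ e ∈ k, (1 - q e)) {N : Finset (Finset α)}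
    {M : Finset α → Finset (Finset α)} (hN : N ⊆ S) (hM : ∀ n ∈ N, M n ⊆ S)
    (hne : ∀ n ∈ N, n ∉ M n) :
    ∑ n ∈ N, ∑ m ∈ M n, w n * w m ≤
      Ex q T (fun P => ∑ n ∈ Uc N P, ((Uc (M n) P).card : ℝ)) := by
  have h1 : ∀ n ∈ N, ∀ m ∈ M n, w n * w m ≤
      Ex q T (fun P => ind (Disjoint P n) * ind (Disjoint P m)) := by
    intro n hn m hm
    have hnS := hN hn
    have hmS := hM n hn hm
    have hnm : n ≠ m := fun h => hne n hn (h ▸ hm)
    have h2 := Ex_unt (q := q) (T := T) (A := {n, m}) (by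
      intro k hk
      rw [mem_insert, mem_singleton] at hk
      rcases hk with rfl | rfl
      · exact hT _ hnS
      · exact hT _ hmS) (by
      refine hd.subset ?_
      rw [coe_insert, coe_singleton]
      intro k hk
      rcases hk with rfl | hk
      · exact hnS
      · rw [Set.mem_singleton_iff.1 hk]; exact hmS)
    rw [prod_pair hnm] at h2
    have e1 : Ex q T (fun P => ind (Disjoint P n) * ind (Disjoint P m)) =
        Ex q T (fun P => ind (∀ k ∈ ({n, m} : Finset (Finset α)), Disjoint P k)) := by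
      refine Ex_congr fun P _ => ?_
      rw [← ind_and]
      refine ind_congr ⟨?_, fun h => ⟨h n (by simp), h m (by simp)⟩⟩
      rintro ⟨g1, g2⟩ k hk
      rw [mem_insert, mem_singleton] at hk
      rcases hk with rfl | rfl
      · exact g1
      · exact g2
    rw [e1, h2]
    exact mul_le_mul (hw n hnS) (hw m hmS) (hw0 m hmS) ((hw0 n hnS).trans (hw n hnS))
  refine (sum_le_sum fun n hn => sum_le_sum fun m hm => h1 n hn m hm).trans ?_
  have e2 : ∑ n ∈ N, ∑ m ∈ M n, Ex q T (fun P => ind (Disjoint P n) * ind (Disjoint P m)) =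
      Ex q T (fun P => ∑ n ∈ N, ∑ m ∈ M n, ind (Disjoint P n) * ind (Disjoint P m)) := by
    rw [Ex_sum]
    exact sum_congr rfl fun n _ => (Ex_sum _ _ _ _).symm
  rw [e2]
  refine le_of_eq (Ex_congr fun P _ => ?_)
  unfold Uc
  rw [sum_filter]
  refine sum_congr rfl fun n _ => ?_
  by_cases h3 : Disjoint P n
  · rw [if_pos h3, card_filter]
    push_cast
    refine sum_congr rfl fun m _ => ?_
    rw [ind_true h3, one_mul]
    unfold ind
    congr
  · rw [if_neg h3]
    refine sum_eq_zero fun m _ => ?_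
    rw [ind_false h3, zero_mul]

/-- **the error of the first order expansion in terms of marks** -/
theorem chErr_le (hq : Pb q) {φ : Finset α → ℂ}
    {rk : Finset α → ℤ} {M K : ℝ}
    (hM : 0 ≤ M) (hK : 1 ≤ K) (hC : C ⊆ J) (hT : ∀ k ∈ J, k ⊆ T)
    (hd : (J : Set (Finset α)).PairwiseDisjoint id)
    (hw : ∀ k ∈ J, ‖φ k‖ ≤ ∏ e ∈ k, (1 - q e)) :
    chErr φ rk J C M K ≤ Ex q T (fun P =>
      K * M * (3 ^ (Uc ((J \ C) ∪ tops rk C) P).card * ind (2 ≤ (Uc ((J \ C) ∪ tops rk C) P).card)) +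
      (K + 1) * M * ∑ n ∈ Uc (tops rk C) P, ((Uc (tops rk (C.erase n)) P).card : ℝ)) := by
  have hS : (J \ C) ∪ tops rk C ⊆ J :=
    union_subset sdiff_subset ((filter_subset _ _).trans hC)
  have h1 := sum_ge2_le (q := q) (T := T) (S := (J \ C) ∪ tops rk C) (w := fun k => ‖φ k‖) hq
    (fun k hk => hT k (hS hk)) (hd.subset (coe_subset.2 hS)) (fun _ _ => norm_nonneg _)
    (fun k hk => hw k (hS hk))
  have h2 := sum_pair_le (q := q) (T := T) (S := J) (w := fun k => ‖φ k‖) hT hd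
    (fun _ _ => norm_nonneg _) hw (N := tops rk C) (M := fun n => tops rk (C.erase n))
    ((filter_subset _ _).trans hC)
    (fun n _ => ((filter_subset _ _).trans (erase_subset _ _)).trans hC)
    (fun n _ h => notMem_erase n C (mem_tops.1 h).1)
  unfold chErr
  rw [Ex_add, Ex_smul, Ex_smul]
  refine add_le_add (mul_le_mul_of_nonneg_left h1 ?_) (mul_le_mul_of_nonneg_left h2 ?_)
  · exact mul_nonneg (by linarith) hM
  · exact mul_nonneg (by linarith) hM

end Pool.Agent.H39.R45
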