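import Mathlib
import Pool.Agent.H39.Q1.ChainR
import Pool.Agent.H39.R45.Unt

set_option autoImplicit false
open Finset

/-! # The error at a marked corner in terms of untied classes

`UM h ω P` : the classes without marks which have size `h`. `NZ` : such a class has a tie near the corner.
`chErr_UM` : the error of the first order expansion is at most a moment of the number of these classes. -/

namespace Pool.Agent.H39.R45

open Pool.Agent.H75.Perc Pool.Agent.H75.TwoArm Pool.Agent.H75.Four Pool.Agent.H69.Q1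
open Pool.Agent.Q1 Pool.Agent.H25.Q1.Add Pool.Agent.H99.NC Pool.Agent.H49.Perc
open Pool.Agent.H39.Q1
open Pool.Agent.H20.Q1 (Eh CS hf)

variable {ι : Type*} [DecidableEq ι]

open Classical in
/-- classes without marks of size `h` -/
noncomputable def UM (TT : Finset (ℤ × ℤ)) (fm : ℤ × ℤ → ι) (co : ι → Bool)
    (La : ι → Finset (ℤ × ℤ)) (b : ℤ × ℤ → ℤ × ℤ) (ε x0 y0 h : ℤ) (ω P : Finset (ℤ × ℤ)) :
    Finset (Finset (ℤ × ℤ)) :=
  (TT.image (cls TT fm co La b ω)).filter fun k =>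
    Disjoint P k ∧ ∃ e ∈ k, Mac fm co La b ε x0 y0 h ω e

/-- a class without marks of size `h` has a tie near the corner -/
def NZ (TT : Finset (ℤ × ℤ)) (fm : ℤ × ℤ → ι) (co : ι → Bool)
    (La : ι → Finset (ℤ × ℤ)) (b : ℤ × ℤ → ℤ × ℤ) (ε x0 y0 h ρ : ℤ) (ω P : Finset (ℤ × ℤ)) : Prop :=
  ∃ k ∈ UM TT fm co La b ε x0 y0 h ω P, ∃ e ∈ k,
    (0 ≤ cU ε x0 y0 (nd (co (fm e)) (b e)) ∧ cU ε x0 y0 (nd (co (fm e)) (b e)) ≤ 2 * ρ) ∧
    0 ≤ cV ε x0 y0 (nd (co (fm e)) (b e)) ∧ cV ε x0 y0 (nd (co (fm e)) (b e)) ≤ 2 * ρ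

variable {X : Env} {W Bb B TT Cs ω ω' θ P k m m' n : Finset (ℤ × ℤ)}
  {fm : ℤ × ℤ → ι} {co : ι → Bool} {Wl La Λ : ι → Finset (ℤ × ℤ)}
  {b o : ℤ × ℤ → ℤ × ℤ} {a : ℤ × ℤ → ℂ} {s : ℤ × ℤ → ℂ} {e x y : ℤ × ℤ} {i : ι}
  {L : Finset (ℤ × ℤ)} {iL iF : ι} {ε x0 y0 h ρ Um Vm : ℤ}

lemma mem_UM : k ∈ UM TT fm co La b ε x0 y0 h ω P ↔ k ∈ TT.image (cls TT fm co La b ω) ∧
    Disjoint P k ∧ ∃ e ∈ k, Mac fm co La b ε x0 y0 h ω e := by
  classical
  unfold UM; rw [mem_filter]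

omit [DecidableEq ι] in
lemma Mac_mono (hρ : ρ ≤ h) (hm : Mac fm co La b ε x0 y0 h ω e) :
    Mac fm co La b ε x0 y0 ρ ω e := by
  obtain ⟨x, h1, h2⟩ := hm
  refine ⟨x, h1, ?_⟩
  rcases h2 with h2 | h2
  · exact Or.inl (hρ.trans h2)
  · exact Or.inr (hρ.trans h2)

lemma UM_mono (hρ : ρ ≤ h) : UM TT fm co La b ε x0 y0 h ω P ⊆ UM TT fm co La b ε x0 y0 ρ ω P := by
  intro k hk
  obtain ⟨h1, h2, e, h3, h4⟩ := mem_UM.1 hk
  exact mem_UM.2 ⟨h1, h2, e, h3, Mac_mono hρ h4⟩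

lemma CM_img (hk : k ∈ CM W TT fm co Wl La b o L iL iF ε x0 y0 ω) :
    k ∈ TT.image (cls TT fm co La b ω) := by
  classical
  obtain ⟨e, he, rfl⟩ := mem_image.1 (mem_filter.1 hk).1
  exact mem_image_of_mem _ (mem_filter.1 he).1

/-- the classes are disjoint -/
lemma img_disj : ((TT.image (cls TT fm co La b ω) : Finset (Finset (ℤ × ℤ))) :
    Set (Finset (ℤ × ℤ))).PairwiseDisjoint id := by
  intro k hk k' hk' hne
  obtain ⟨e, -, rfl⟩ := mem_image.1 (mem_coe.1 hk)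
  obtain ⟨e', -, rfl⟩ := mem_image.1 (mem_coe.1 hk')
  show Disjoint (cls TT fm co La b ω e) (cls TT fm co La b ω e')
  rw [disjoint_left]
  intro l h1 h2
  exact hne ((cls_eq_of h1).symm.trans (cls_eq_of h2))

/-- a class of the chain contains its ties as members -/
lemma cls_of_mem (hk : k ∈ TT.image (cls TT fm co La b ω)) (he : e ∈ k) :
    cls TT fm co La b ω e = k := by
  obtain ⟨e0, -, rfl⟩ := mem_image.1 hk
  exact cls_eq_of he

/-- heights exist -/
lemma CM_hts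
    (hk : m ∈ CM W TT fm co Wl La b o L iL iF ε x0 y0 ω) :
    (hts fm co b L iL iF ε x0 y0 ω m).Nonempty := by
  classical
  obtain ⟨-, e, he, hc⟩ := mem_filter.1 hk
  rcases hc with ⟨h1, -⟩ | ⟨h1, g, h2, h3, h4⟩
  · exact ⟨_, e, he, Or.inl ⟨h1, rfl⟩⟩
  · exact ⟨_, e, he, Or.inr ⟨h1, g, h2, h3, h4, rfl⟩⟩

lemma node_inj {c : Bool} (hε : ε = 1 ∨ ε = -1) {p g : ℤ × ℤ}
    (h1 : cU ε x0 y0 (nd c p) = cU ε x0 y0 (nd c g)) (h2 : cV ε x0 y0 (nd c p) = cV ε x0 y0 (nd c g)) :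
    p = g := by
  have h3 : nd c p = nd c g := by
    refine chart_inj (ε := ε) (x0 := x0) (y0 := y0) hε ?_
    unfold cU at h1
    unfold cV at h2
    refine Prod.ext ?_ ?_ <;> simp only <;> omega
  cases c
  · rw [nd_false, nd_false, Prod.mk.injEq] at h3
    exact Prod.ext (by omega) (by omega)
  · rw [nd_true, nd_true, Prod.mk.injEq] at h3
    exact Prod.ext (by omega) (by omega)

/-- **two classes of the same rank**: they are equal or macroscopic -/
theorem CnrM.rk_unique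
    (hC : Cnr W Bb B TT fm co Wl La Λ b o L iL iF ε x0 y0 h Um Vm)
    (hD : CnrM W Bb TT fm co Wl La b L iL iF ε x0 y0 h)
    (hm : m ∈ CM W TT fm co Wl La b o L iL iF ε x0 y0 ω)
    (hm' : m' ∈ CM W TT fm co Wl La b o L iL iF ε x0 y0 ω)
    (hrk : rkC fm co b L iL iF ε x0 y0 ω m = rkC fm co b L iL iF ε x0 y0 ω m')
    (hn : ∀ e ∈ m, ¬ Mac fm co La b ε x0 y0 h ω e) : m' = m := by
  classical
  have hh := hC.hh
  have h1 := rk_mem (iL := iL) (iF := iF) (L := L) (x0 := x0) (y0 := y0) (ω := ω) (k := m)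
    (fm := fm) (co := co) (b := b) hC.hε (CM_hts hm)
  have h2 := rk_mem (iL := iL) (iF := iF) (L := L) (x0 := x0) (y0 := y0) (ω := ω) (k := m')
    (fm := fm) (co := co) (b := b) hC.hε (CM_hts hm')
  rw [← hrk] at h2
  obtain ⟨e1, he1, h1⟩ := h1
  obtain ⟨e2, he2, h2⟩ := h2
  have c1 := cls_of_mem (CM_img hm) he1
  have c2 := cls_of_mem (CM_img hm') he2
  have e1T : e1 ∈ TT := by
    have : e1 ∈ cls TT fm co La b ω e1 := by rw [c1]; exact he1
    exact cls_sub this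
  have e2T : e2 ∈ TT := by
    have : e2 ∈ cls TT fm co La b ω e2 := by rw [c2]; exact he2
    exact cls_sub this
  rw [← c1, ← c2]
  rcases h1 with ⟨i1, r1⟩ | ⟨i1, g1, q1, u1, v1, r1⟩
  · rcases h2 with ⟨i2, r2⟩ | ⟨i2, g2, q2, u2, v2, r2⟩
    · have t1 := hC.tL e1 (mem_TF.2 ⟨e1T, i1⟩)
      have t2 := hC.tL e2 (mem_TF.2 ⟨e2T, i2⟩)
      have hb : b e1 = b e2 := node_inj hC.hε (t1.2.2.1.trans t2.2.2.1.symm) (r1.symm.trans r2)
      refine cls_eq_of (mem_cls.2 ⟨⟨e2T, i2.trans i1.symm⟩, ?_⟩)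
      rw [hb]; exact Co.refl _ _
    · exact absurd (r1.symm.trans r2) (hC.parity (hC.tL e1 (mem_TF.2 ⟨e1T, i1⟩)).2.2.1 u2)
  · rcases h2 with ⟨i2, r2⟩ | ⟨i2, g2, q2, u2, v2, r2⟩
    · exact absurd (r2.symm.trans r1) (hC.parity (hC.tL e2 (mem_TF.2 ⟨e2T, i2⟩)).2.2.1 u1)
    · have hg : g1 = g2 := node_inj hC.hε (u1.trans u2.symm) (r1.symm.trans r2)
      refine cls_eq_of (mem_cls.2 ⟨⟨e2T, i2.trans i1.symm⟩, ?_⟩)
      have hL : Co (HS (co iF) L ω) (b e1) (b e2) := q1.trans (by rw [hg]; exact q2.symm)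
      have hnm := hn e1 he1
      unfold Mac at hnm
      rw [i1] at hnm ⊢
      push Not at hnm
      have hF := hC.tF e1 (mem_TF.2 ⟨e1T, i1⟩)
      have h3 : Co (HS (co iF) (La iF) ω) (b e1) (b e2) := by
        refine co_layer (f := cV ε x0 y0) (h := h) ?_ hD.laF ?_ hL
        · intro p q hpq
          have := unit_UV (x0 := x0) (y0 := y0) hC.hε hpq
          omega
        · intro x hx
          have h1 := (hnm x hx).2
          rw [abs_lt, hF.2.2.1] at h1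
          omega
      exact h3

section count

variable {K M : ℝ}

lemma three_pow (U : ℕ) : (U : ℝ) ^ 2 ≤ 3 ^ U := by
  induction U with
  | zero => norm_num
  | succ n ih =>
    rcases Nat.lt_or_ge n 2 with h | h
    · interval_cases n <;> norm_num
    · have h2 : (2 : ℝ) ≤ n := by exact_mod_cast h
      rw [pow_succ 3]
      push_cast
      nlinarith

/-- **number of pairs of classes without marks** -/
theorem CnrM.pairs_le (hρ : ρ ≤ h) (hM : Multi X W Bb B TT fm co Wl La b o)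
    (hC : Cnr W Bb B TT fm co Wl La Λ b o L iL iF ε x0 y0 h Um Vm)
    (hD : CnrM W Bb TT fm co Wl La b L iL iF ε x0 y0 h)
    (hS : Surr ε x0 y0 h L ω) (hSρ : Surr ε x0 y0 ρ L ω) {C : Finset (Finset (ℤ × ℤ))}
    (hCdef : C = CM W TT fm co Wl La b o L iL iF ε x0 y0 ω \
      Irr W TT fm co Wl La b o L iL iF ε x0 y0 ω) :
    ∑ n ∈ Uc (tops (rkC fm co b L iL iF ε x0 y0 ω) C) P,
      ((Uc (tops (rkC fm co b L iL iF ε x0 y0 ω) (C.erase n)) P).card : ℝ) ≤
      3 ^ (UM TT fm co La b ε x0 y0 h ω P).card * ind (2 ≤ (UM TT fm co La b ε x0 y0 h ω P).card) +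
      ind (2 ≤ (UM TT fm co La b ε x0 y0 ρ ω P).card ∨ NZ TT fm co La b ε x0 y0 h ρ ω P) := by
  classical
  set rk := rkC fm co b L iL iF ε x0 y0 ω with hrk
  set UH := UM TT fm co La b ε x0 y0 h ω P with hUH
  set bad := 2 ≤ (UM TT fm co La b ε x0 y0 ρ ω P).card ∨ NZ TT fm co La b ε x0 y0 h ρ ω P with hbad
  have hCC : C ⊆ CM W TT fm co Wl La b o L iL iF ε x0 y0 ω := by rw [hCdef]; exact sdiff_subset
  have hne : ∀ k ∈ C, k.Nonempty := by
    intro k hk
    obtain ⟨-, e, he, -⟩ := mem_filter.1 (hCC hk)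
    exact ⟨e, he⟩
  have hNs : Uc (tops rk C) P ⊆ UH := by
    intro n hn
    obtain ⟨h1, h2⟩ := mem_Uc.1 hn
    have h3 := (mem_tops.1 h1).1
    obtain ⟨e, he⟩ := hne n h3
    refine mem_UM.2 ⟨CM_img (hCC h3), h2, e, he, ?_⟩
    rw [hCdef] at h1
    exact hD.mac_top hM hC hS h1 he
  have key : ∀ n ∈ Uc (tops rk C) P,
      ((Uc (tops rk (C.erase n)) P).card : ℝ) ≤ ((UH.card : ℝ) - 1) + ind bad := by
    intro n hn
    have hnU := hNs hn
    have hpos : 1 ≤ UH.card := card_pos.2 ⟨n, hnU⟩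
    by_cases hall : ∀ m ∈ Uc (tops rk (C.erase n)) P, m ∈ UH
    · have h1 : Uc (tops rk (C.erase n)) P ⊆ UH.erase n := by
        intro m hm
        refine mem_erase.2 ⟨?_, hall m hm⟩
        exact (mem_erase.1 (mem_tops.1 (mem_Uc.1 hm).1).1).1
      have h2 := card_le_card h1
      rw [card_erase_of_mem hnU] at h2
      have h3 : ((Uc (tops rk (C.erase n)) P).card : ℝ) ≤ ((UH.card - 1 : ℕ) : ℝ) := by
        exact_mod_cast h2
      rw [Nat.cast_sub hpos] at h3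
      have := ind_nonneg bad
      push_cast at h3
      linarith
    · push Not at hall
      obtain ⟨m, hm, hmU⟩ := hall
      obtain ⟨hm1, hm2⟩ := mem_Uc.1 hm
      have hm3 := (mem_erase.1 (mem_tops.1 hm1).1)
      have hnm : ∀ e ∈ m, ¬ Mac fm co La b ε x0 y0 h ω e := by
        intro e he hmac
        exact hmU (mem_UM.2 ⟨CM_img (hCC hm3.2), hm2, e, he, hmac⟩)
      have hone : Uc (tops rk (C.erase n)) P ⊆ {m} := by
        intro m' hm'
        rw [mem_singleton]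
        have h4 := (mem_Uc.1 hm').1
        have h5 := (mem_erase.1 (mem_tops.1 h4).1)
        have h6 : rk m = rk m' := le_antisymm ((mem_tops.1 h4).2 m (mem_erase.2 hm3))
          ((mem_tops.1 hm1).2 m' (mem_erase.2 h5))
        exact CnrM.rk_unique hC hD (hCC hm3.2) (hCC h5.2) h6 hnm
      have hb : bad := by
        obtain ⟨e, he⟩ := hne m hm3.2
        rw [hCdef] at hm1
        rcases hD.near_second hρ hM hC hSρ hm1 he with h7 | ⟨-, e', he', h8⟩
        · left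
          have g1 : m ∈ UM TT fm co La b ε x0 y0 ρ ω P :=
            mem_UM.2 ⟨CM_img (hCC hm3.2), hm2, e, he, h7⟩
          have g2 : n ∈ UM TT fm co La b ε x0 y0 ρ ω P := UM_mono hρ hnU
          have g3 : ({n, m} : Finset (Finset (ℤ × ℤ))) ⊆ UM TT fm co La b ε x0 y0 ρ ω P := by
            intro k hk
            rw [mem_insert, mem_singleton] at hk
            rcases hk with rfl | rfl
            · exact g2
            · exact g1
          have g4 := card_le_card g3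
          rwa [card_pair (Ne.symm hm3.1)] at g4
        · right
          exact ⟨n, hnU, e', he', h8⟩
      have h8 := card_le_card hone
      rw [card_singleton] at h8
      have h9 : ((Uc (tops rk (C.erase n)) P).card : ℝ) ≤ 1 := by exact_mod_cast h8
      have h10 : (1 : ℝ) ≤ UH.card := by exact_mod_cast hpos
      rw [ind_true hb]
      linarith
  have hc0 := ind_nonneg bad
  have hcN : ((Uc (tops rk C) P).card : ℝ) ≤ UH.card := by exact_mod_cast card_le_card hNs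
  by_cases hem : Uc (tops rk C) P = ∅
  · rw [hem, sum_empty]
    have : (0 : ℝ) ≤ 3 ^ UH.card * ind (2 ≤ UH.card) := mul_nonneg (by positivity) (ind_nonneg _)
    linarith
  obtain ⟨n0, hn0⟩ := nonempty_iff_ne_empty.2 hem
  have hpos : 1 ≤ UH.card := card_pos.2 ⟨n0, hNs hn0⟩
  have hposR : (1 : ℝ) ≤ UH.card := by exact_mod_cast hpos
  refine (sum_le_sum key).trans ?_
  rw [sum_const, nsmul_eq_mul]
  have h1 : ((Uc (tops rk C) P).card : ℝ) * ((UH.card : ℝ) - 1 + ind bad) ≤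
      UH.card * ((UH.card : ℝ) - 1 + ind bad) :=
    mul_le_mul_of_nonneg_right hcN (by linarith)
  refine h1.trans ?_
  have hind1 : ind bad ≤ 1 := ind_le_one _
  by_cases h2 : 2 ≤ UH.card
  · rw [ind_true h2, mul_one]
    have h3 := three_pow UH.card
    nlinarith
  · have h3 : UH.card = 1 := by omega
    rw [ind_false h2, mul_zero, h3]
    push_cast
    linarith

/-- **The error of the first order expansion for one configuration.** `q e` : probability of a mark. -/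
theorem CnrM.chErr_UM (hρ : ρ ≤ h) (hM : Multi X W Bb B TT fm co Wl La b o)
    (hC : Cnr W Bb B TT fm co Wl La Λ b o L iL iF ε x0 y0 h Um Vm)
    (hD : CnrM W Bb TT fm co Wl La b L iL iF ε x0 y0 h) (hω : ω ⊆ B)
    (hfam : ∀ e ∈ TT, fm e = iL ∨ fm e = iF)
    (hS : Surr ε x0 y0 h L ω) (hSρ : Surr ε x0 y0 ρ L ω) {q : ℤ × ℤ → ℝ} (hq : Pb q)
    (hw : ∀ e ∈ TT, ‖s e‖ ≤ 1 - q e) (hM0 : 0 ≤ M) (hK : 1 ≤ K) :
    chErr (fun k => ∏ e ∈ k, s e) (rkC fm co b L iL iF ε x0 y0 ω)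
        (JM W TT fm co Wl La b o ω \ Irr W TT fm co Wl La b o L iL iF ε x0 y0 ω)
        (CM W TT fm co Wl La b o L iL iF ε x0 y0 ω \
          Irr W TT fm co Wl La b o L iL iF ε x0 y0 ω) M K ≤
      Ex q TT (fun P => (2 * K + 1) * M * (3 ^ (UM TT fm co La b ε x0 y0 h ω P).card *
          ind (2 ≤ (UM TT fm co La b ε x0 y0 h ω P).card)) +
        (K + 1) * M * ind (2 ≤ (UM TT fm co La b ε x0 y0 ρ ω P).card ∨
          NZ TT fm co La b ε x0 y0 h ρ ω P)) := by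
  classical
  set J := JM W TT fm co Wl La b o ω \ Irr W TT fm co Wl La b o L iL iF ε x0 y0 ω with hJ
  set C := CM W TT fm co Wl La b o L iL iF ε x0 y0 ω \
    Irr W TT fm co Wl La b o L iL iF ε x0 y0 ω with hCdef
  set rk := rkC fm co b L iL iF ε x0 y0 ω with hrk
  have hCJ : C ⊆ J := sdiff_subset_sdiff (filter_subset _ _) (Subset.refl _)
  have hJi : J ⊆ TT.image (cls TT fm co La b ω) := by
    intro k hk
    obtain ⟨e, he, rfl⟩ := mem_image.1 (mem_sdiff.1 hk).1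
    exact mem_image_of_mem _ (mem_filter.1 he).1
  have hJT : ∀ k ∈ J, k ⊆ TT := by
    intro k hk
    obtain ⟨e, -, rfl⟩ := mem_image.1 (hJi hk)
    exact cls_sub
  have hJn : ∀ k ∈ J, k.Nonempty := by
    intro k hk
    obtain ⟨e, he, rfl⟩ := mem_image.1 (hJi hk)
    exact ⟨e, self_cls he⟩
  have h1 := chErr_le (q := q) (T := TT) (J := J) (C := C) (φ := fun k => ∏ e ∈ k, s e) (rk := rk)
    (M := M) (K := K) hq hM0 hK hCJ hJT (img_disj.subset (coe_subset.2 hJi)) (by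
      intro k hk
      rw [norm_prod]
      exact prod_le_prod (fun _ _ => norm_nonneg _) fun e he => hw e (hJT k hk he))
  refine h1.trans (Ex_mono hq fun P _ => ?_)
  have h2 := CnrM.pairs_le (P := P) (C := C) hρ hM hC hD hS hSρ rfl
  have h3 : Uc ((J \ C) ∪ tops rk C) P ⊆ UM TT fm co La b ε x0 y0 h ω P := by
    intro k hk
    obtain ⟨g1, g2⟩ := mem_Uc.1 hk
    have g3 : k ∈ J := by
      rcases mem_union.1 g1 with g | g
      · exact (mem_sdiff.1 g).1
      · exact hCJ (mem_tops.1 g).1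
    obtain ⟨e, he⟩ := hJn k g3
    exact mem_UM.2 ⟨hJi g3, g2, e, he, hD.mac hM hC hω hfam hS g1 he⟩
  have h4 : (3 : ℝ) ^ (Uc ((J \ C) ∪ tops rk C) P).card *
      ind (2 ≤ (Uc ((J \ C) ∪ tops rk C) P).card) ≤
      3 ^ (UM TT fm co La b ε x0 y0 h ω P).card *
        ind (2 ≤ (UM TT fm co La b ε x0 y0 h ω P).card) := by
    have g1 := card_le_card h3
    refine mul_le_mul (pow_le_pow_right₀ (by norm_num) g1) (ind_mono fun g2 => g2.trans g1)
      (ind_nonneg _) (by positivity)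
  have h5 := mul_le_mul_of_nonneg_left h4 (mul_nonneg (by linarith : (0 : ℝ) ≤ K) hM0)
  have h6 := mul_le_mul_of_nonneg_left h2 (mul_nonneg (by linarith : (0 : ℝ) ≤ K + 1) hM0)
  refine (add_le_add h5 h6).trans (le_of_eq ?_)
  ring

/-- densities of the product space -/
noncomputable def qE (TT : Finset (ℤ × ℤ)) (σ : ℝ) (l : ℤ × ℤ) : ℝ := if l ∈ TT then 1 - σ else 1 / 2

lemma qE_pb {σ : ℝ} (h0 : 0 ≤ σ) (h1 : σ ≤ 1) : Pb (qE TT σ) := by
  intro l
  unfold qE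
  split_ifs
  · constructor <;> linarith
  · norm_num

/-- **bulk labels and marks in one product space** -/
lemma Ex_qE {σ : ℝ} (hd : Disjoint B TT) (F : Finset (ℤ × ℤ) → Finset (ℤ × ℤ) → ℝ) :
    Ex (qE TT σ) (B ∪ TT) (fun Ω => F (Ω ∩ B) (Ω ∩ TT)) =
      Ex hf B (fun ω => Ex (fun _ => 1 - σ) TT (fun P => F ω P)) := by
  rw [Ex_union _ hd, Ex_congr_q (q := qE TT σ) (q' := hf) (E := B) (fun l hl => by
    unfold qE
    rw [if_neg (disjoint_left.1 hd hl)])]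
  refine Ex_congr fun ω hω => ?_
  rw [Ex_congr_q (q := qE TT σ) (q' := fun _ => 1 - σ) (E := TT) (fun l hl => by
    unfold qE
    rw [if_pos hl])]
  refine Ex_congr fun P hP => ?_
  have e1 : (ω ∪ P) ∩ B = ω := by
    ext l
    rw [mem_inter, mem_union]
    constructor
    · rintro ⟨h1 | h1, h2⟩
      · exact h1
      · exact absurd (hP h1) (disjoint_left.1 hd h2)
    · intro h1; exact ⟨Or.inl h1, hω h1⟩
  have e2 : (ω ∪ P) ∩ TT = P := by
    ext l
    rw [mem_inter, mem_union]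
    constructor
    · rintro ⟨h1 | h1, h2⟩
      · exact absurd h2 (disjoint_left.1 hd (hω h1))
      · exact h1
    · intro h1; exact ⟨Or.inr h1, hP h1⟩
  rw [e1, e2]

/-- **The error of the first order expansion**, mean value: `σ` bounds the norms of the weights. -/
theorem CnrM.chErr_mean (hρ : ρ ≤ h) (hM : Multi X W Bb B TT fm co Wl La b o)
    (hC : Cnr W Bb B TT fm co Wl La Λ b o L iL iF ε x0 y0 h Um Vm)
    (hD : CnrM W Bb TT fm co Wl La b L iL iF ε x0 y0 h)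
    (hfam : ∀ e ∈ TT, fm e = iL ∨ fm e = iF)
    (hS : ∀ ω, Surr ε x0 y0 h L ω) (hSρ : ∀ ω, Surr ε x0 y0 ρ L ω) {σ : ℝ} (hσ0 : 0 ≤ σ)
    (hσ1 : σ ≤ 1) (hw : ∀ e ∈ TT, ‖s e‖ ≤ σ) (hM0 : 0 ≤ M) (hK : 1 ≤ K) :
    Ex hf B (fun ω => chErr (fun k => ∏ e ∈ k, s e) (rkC fm co b L iL iF ε x0 y0 ω)
        (JM W TT fm co Wl La b o ω \ Irr W TT fm co Wl La b o L iL iF ε x0 y0 ω)
        (CM W TT fm co Wl La b o L iL iF ε x0 y0 ω \
          Irr W TT fm co Wl La b o L iL iF ε x0 y0 ω) M K) ≤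
      (2 * K + 1) * M * Ex (qE TT σ) (B ∪ TT) (fun Ω =>
        3 ^ (UM TT fm co La b ε x0 y0 h (Ω ∩ B) (Ω ∩ TT)).card *
          ind (2 ≤ (UM TT fm co La b ε x0 y0 h (Ω ∩ B) (Ω ∩ TT)).card)) +
      (K + 1) * M * PrP (qE TT σ) (B ∪ TT) (fun Ω =>
        2 ≤ (UM TT fm co La b ε x0 y0 ρ (Ω ∩ B) (Ω ∩ TT)).card ∨
          NZ TT fm co La b ε x0 y0 h ρ (Ω ∩ B) (Ω ∩ TT)) := by
  have hd : Disjoint B TT := hM.bT.mono_left hM.bB
  have hq : Pb (fun _ : ℤ × ℤ => 1 - σ) := Pb.const (by linarith) (by linarith)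
  refine (Ex_mono (fun _ => by norm_num : Pb hf) fun ω hω => CnrM.chErr_UM hρ hM hC hD hω hfam (hS ω) (hSρ ω) hq
    (fun e he => by rw [sub_sub_cancel]; exact hw e he) hM0 hK).trans (le_of_eq ?_)
  unfold PrP
  rw [← Ex_smul, ← Ex_smul, ← Ex_add, ← Ex_qE hd]

end count

end Pool.Agent.H39.R45
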