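import Mathlib
import Pool.Agent.H39.R45.View45
import Pool.Agent.Q1.M6e.Flat

set_option autoImplicit false
open Finset

/-! # Classes which contain a tie near an end of their wall

`crn_le` : the weights of the first ties in terms of classes without marks. `crn_mean` : mean value, by the corner
events of the view and the moment of the number of classes. -/

namespace Pool.Agent.H39.R45

open Pool.Agent.H75.Perc Pool.Agent.H75.TwoArm Pool.Agent.H75.Four Pool.Agent.H69.Q1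
open Pool.Agent.Q1 Pool.Agent.H99.NC Pool.Agent.H49.Perc Pool.Agent.H60.Q1
open Pool.Agent.H39.Q1 Pool.Agent.H59.Q1 Pool.Agent.Q1.M6e
open Pool.Agent.H20.Q1 (Eh CS hf)

variable {ι : Type*} [DecidableEq ι]
variable {B TT Ω ω P k FlT : Finset (ℤ × ℤ)} {fm : ℤ × ℤ → ι} {co : ι → Bool}
  {La : ι → Finset (ℤ × ℤ)} {b : ℤ × ℤ → ℤ × ℤ} {e e' l : ℤ × ℤ} {i : ι} {ε : Bool × Bool}
  {x0 : ℤ × ℤ} {N R h : ℤ} {σ : ℝ} {rk : ℤ × ℤ → ℤ} {δ u0 v0 : ℤ}

open Classical in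
/-- classes without marks which contain a tie outside `FlT` -/
noncomputable def UMz (TT : Finset (ℤ × ℤ)) (fm : ℤ × ℤ → ι) (co : ι → Bool)
    (La : ι → Finset (ℤ × ℤ)) (b : ℤ × ℤ → ℤ × ℤ) (ε x0 y0 h : ℤ) (ω P : Finset (ℤ × ℤ)) (i : ι)
    (FlT : Finset (ℤ × ℤ)) : Finset (Finset (ℤ × ℤ)) :=
  (UMi TT fm co La b ε x0 y0 h ω P i).filter fun k => ∃ e ∈ k, e ∉ FlT

/-- **weights of the first ties** -/
theorem crn_le (hσ0 : 0 ≤ σ) (hσ1 : σ ≤ 1)
    (hrk : ∀ e ∈ TT, ∀ e' ∈ TT, rk e = rk e' → e = e') :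
    ∑ e ∈ TF TT fm i, crn TT fm co La b rk (fun ω e => Mac fm co La b δ u0 v0 h ω e) FlT σ e ω ≤
      Ex (fun _ => 1 - σ) TT (fun P => ((UMz TT fm co La b δ u0 v0 h ω P i FlT).card : ℝ)) := by
  classical
  have hq : Pb (fun _ : ℤ × ℤ => 1 - σ) := Pb.const (by linarith) (by linarith)
  set G : ℤ × ℤ → Prop := fun e => (∀ e' ∈ cls TT fm co La b ω e, rk e ≤ rk e') ∧
    Mac fm co La b δ u0 v0 h ω e ∧ ∃ e' ∈ cls TT fm co La b ω e, e' ∉ FlT with hG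
  have h1 : ∀ e ∈ TF TT fm i, crn TT fm co La b rk (fun ω e => Mac fm co La b δ u0 v0 h ω e)
      FlT σ e ω = Ex (fun _ => 1 - σ) TT (fun P => ind (G e) *
        ind (∀ k ∈ ({cls TT fm co La b ω e} : Finset (Finset (ℤ × ℤ))), Disjoint P k)) := by
    intro e _
    rw [Ex_smul, Ex_unt (fun k hk => by rw [mem_singleton.1 hk]; exact cls_sub)
      (by rw [coe_singleton]; exact Set.pairwiseDisjoint_singleton _ _)]
    unfold crn
    rw [prod_singleton]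
    simp only [sub_sub_cancel]
    rw [prod_const]
    ring
  rw [sum_congr rfl h1, ← Ex_sum]
  refine Ex_mono hq fun P _ => ?_
  have h2 : ∑ e ∈ TF TT fm i, ind (G e) *
      ind (∀ k ∈ ({cls TT fm co La b ω e} : Finset (Finset (ℤ × ℤ))), Disjoint P k) =
      (((TF TT fm i).filter fun e => G e ∧ Disjoint P (cls TT fm co La b ω e)).card : ℝ) := by
    rw [card_filter]
    push_cast
    refine sum_congr rfl fun e _ => ?_
    rw [← ind_and]
    unfold ind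
    simp only [mem_singleton, forall_eq]
  rw [h2]
  have h3 : ((TF TT fm i).filter fun e => G e ∧ Disjoint P (cls TT fm co La b ω e)).card ≤
      (UMz TT fm co La b δ u0 v0 h ω P i FlT).card := by
    refine card_le_card_of_injOn (cls TT fm co La b ω) ?_ ?_
    · intro e he
      obtain ⟨g1, ⟨g2, g3, e', g4, g5⟩, g6⟩ := mem_filter.1 (mem_coe.1 he)
      obtain ⟨g7, g8⟩ := mem_TF.1 g1
      rw [mem_coe]
      unfold UMz UMi
      refine mem_filter.2 ⟨mem_filter.2 ⟨mem_UM.2 ⟨mem_image_of_mem _ g7, g6, e, self_cls g7, g3⟩,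
        e, self_cls g7, g8⟩, e', g4, g5⟩
    · intro e he e' he' heq
      obtain ⟨g1, ⟨g2, -, -⟩, -⟩ := mem_filter.1 (mem_coe.1 he)
      obtain ⟨k1, ⟨k2, -, -⟩, -⟩ := mem_filter.1 (mem_coe.1 he')
      have m1 := (mem_TF.1 g1).1
      have m2 := (mem_TF.1 k1).1
      refine hrk e m1 e' m2 (le_antisymm (g2 e' ?_) (k2 e ?_))
      · rw [heq]; exact self_cls m2
      · rw [← heq]; exact self_cls m1
  exact_mod_cast h3

lemma n_le_three (n : ℕ) : (n : ℝ) ≤ 3 ^ n := by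
  have h := three_pow n
  rcases Nat.eq_zero_or_pos n with h0 | h0
  · subst h0; norm_num
  · have h1 : (1 : ℝ) ≤ n := by exact_mod_cast h0
    nlinarith

/-- **classes without marks near an end of the wall** -/
theorem FW.UMz_le (hF : FW TT fm b (La i) i ε x0 N) (hLB : La i ⊆ B)
    (hδ : δ = 1 ∨ δ = -1) (hR : 4 * R ≤ h) {ρ1 : ℤ}
    (hz : ∀ e ∈ TF TT fm i, e ∉ FlT → inR (wp 1 x0 0) ρ1 (gm ε (b e)) ∨
      inR (wp 1 x0 N) ρ1 (gm ε (b e))) :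
    ((UMz TT fm co La b δ u0 v0 h (Ω ∩ B) (Ω ∩ TT) i FlT).card : ℝ) ≤
      ind (CZ 1 (Lx co La i ε) x0 N 0 ρ1 R (vI TT fm co La b i ε x0 N Ω)) +
      ind (CZ 1 (Lx co La i ε) x0 N N ρ1 R (vI TT fm co La b i ε x0 N Ω)) +
      3 ^ (UM TT fm co La b δ u0 v0 h (Ω ∩ B) (Ω ∩ TT)).card *
        ind (2 ≤ (UM TT fm co La b δ u0 v0 h (Ω ∩ B) (Ω ∩ TT)).card) := by
  classical
  set Z := UMz TT fm co La b δ u0 v0 h (Ω ∩ B) (Ω ∩ TT) i FlT with hZ
  set U := UM TT fm co La b δ u0 v0 h (Ω ∩ B) (Ω ∩ TT) with hU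
  have hZU : Z ⊆ U := (filter_subset _ _).trans (filter_subset _ _)
  have hc : (Z.card : ℝ) ≤ U.card := by exact_mod_cast card_le_card hZU
  have i1 := ind_nonneg (CZ 1 (Lx co La i ε) x0 N 0 ρ1 R (vI TT fm co La b i ε x0 N Ω))
  have i2 := ind_nonneg (CZ 1 (Lx co La i ε) x0 N N ρ1 R (vI TT fm co La b i ε x0 N Ω))
  by_cases h2 : 2 ≤ U.card
  · rw [ind_true h2, mul_one]
    have := n_le_three U.card
    linarith
  rw [ind_false h2, mul_zero, add_zero]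
  rcases Z.eq_empty_or_nonempty with h3 | ⟨k, hk⟩
  · rw [h3, card_empty]; push_cast; linarith
  have hone : (Z.card : ℝ) ≤ 1 := by
    have : U.card ≤ 1 := by omega
    exact_mod_cast (card_le_card hZU).trans this
  obtain ⟨g1, e, g2, g3⟩ := mem_filter.1 hk
  obtain ⟨g4, e1, g5, g6⟩ := mem_filter.1 g1
  obtain ⟨g7, -, -⟩ := mem_UM.1 g4
  have c1 := cls_of_mem g7 g5
  have he : e ∈ cls TT fm co La b (Ω ∩ B) e1 := by rw [c1]; exact g2
  obtain ⟨⟨k1, k2⟩, -⟩ := mem_cls.1 he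
  have hei : fm e = i := k2.trans g6
  rcases hz e (mem_TF.2 ⟨k1, hei⟩) g3 with h4 | h4
  · have := hF.CZ_of hLB hδ hR g4 g2 hei h4
    rw [ind_true this]
    linarith
  · have := hF.CZ_of hLB hδ hR g4 g2 hei h4
    rw [ind_true this]
    linarith

/-- **mean value** -/
theorem FW.crn_mean (hF : FW TT fm b (La i) i ε x0 N) (hd : Disjoint B TT) (hLB : La i ⊆ B)
    (hδ : δ = 1 ∨ δ = -1) (hR : 4 * R ≤ h) (hσ0 : 0 ≤ σ) (hσ1 : σ ≤ 1)
    (hrk : ∀ e ∈ TT, ∀ e' ∈ TT, rk e = rk e' → e = e') {ρ1 : ℤ}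
    (hz : ∀ e ∈ TF TT fm i, e ∉ FlT → inR (wp 1 x0 0) ρ1 (gm ε (b e)) ∨
      inR (wp 1 x0 N) ρ1 (gm ε (b e))) :
    Ex hf B (fun ω => ∑ e ∈ TF TT fm i, crn TT fm co La b rk
      (fun ω e => Mac fm co La b δ u0 v0 h ω e) FlT σ e ω) ≤
      PrP (qE TT σ) (B ∪ TT) (fun Ω =>
        CZ 1 (Lx co La i ε) x0 N 0 ρ1 R (vI TT fm co La b i ε x0 N Ω)) +
      PrP (qE TT σ) (B ∪ TT) (fun Ω =>
        CZ 1 (Lx co La i ε) x0 N N ρ1 R (vI TT fm co La b i ε x0 N Ω)) +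
      Ex (qE TT σ) (B ∪ TT) (fun Ω =>
        3 ^ (UM TT fm co La b δ u0 v0 h (Ω ∩ B) (Ω ∩ TT)).card *
          ind (2 ≤ (UM TT fm co La b δ u0 v0 h (Ω ∩ B) (Ω ∩ TT)).card)) := by
  refine (Ex_mono (fun _ => by norm_num : Pb hf) fun ω _ => crn_le hσ0 hσ1 hrk).trans ?_
  rw [← Ex_qE hd (F := fun ω P => ((UMz TT fm co La b δ u0 v0 h ω P i FlT).card : ℝ))]
  unfold PrP
  rw [← Ex_add, ← Ex_add]
  exact Ex_mono (qE_pb hσ0 hσ1) fun Ω _ => hF.UMz_le hLB hδ hR hz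

end Pool.Agent.H39.R45
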