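import Mathlib
import Pool.Agent.H39.Q1.ChainG

set_option autoImplicit false
open Finset

/-! # The main terms are macroscopic

`CnrM.DM_mac` : if the class of the tie `e` has an influence when all other ties are tied, then it is
macroscopic. -/

namespace Pool.Agent.H39.Q1

open Pool.Agent.H75.Perc Pool.Agent.H75.TwoArm Pool.Agent.H75.Four Pool.Agent.H69.Q1
open Pool.Agent.Q1 Pool.Agent.H25.Q1.Add Pool.Agent.H99.NC Pool.Agent.H49.Perc
open Pool.Agent.H20.Q1 (Eh CS hf)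

variable {ι : Type*} [DecidableEq ι]
variable {X : Env} {W Bb B TT Cs ω ω' θ P k : Finset (ℤ × ℤ)}
  {fm : ℤ × ℤ → ι} {co : ι → Bool} {Wl La Λ : ι → Finset (ℤ × ℤ)}
  {b o : ℤ × ℤ → ℤ × ℤ} {a : ℤ × ℤ → ℂ} {s : ℤ × ℤ → ℂ} {e x y : ℤ × ℤ} {i : ι}
  {L : Finset (ℤ × ℤ)} {iL iF : ι} {ε x0 y0 h Um Vm : ℤ}

/-- **A class with an influence is not below another class of the chain.** -/
theorem CnrM.DM_top (hM : Multi X W Bb B TT fm co Wl La b o)
    (hC : Cnr W Bb B TT fm co Wl La Λ b o L iL iF ε x0 y0 h Um Vm)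
    (hc : ∀ c ∈ Cs, FarM X TT fm co Wl La b o c) (hc' : ∀ c ∈ Cs, FarM X TT fm co Wl Λ b o c)
    (hω : ω ⊆ B) (heT : e ∈ TT) (hne : DM X Cs a Bb B TT fm co La b e ω ≠ 0) :
    cls TT fm co La b ω e ∈ JM W TT fm co Wl La b o ω ∧
      (cls TT fm co La b ω e ∉ CM W TT fm co Wl La b o L iL iF ε x0 y0 ω ∨
      cls TT fm co La b ω e ∈ tops (rkC fm co b L iL iF ε x0 y0 ω)
        (CM W TT fm co Wl La b o L iL iF ε x0 y0 ω \
          Irr W TT fm co Wl La b o L iL iF ε x0 y0 ω)) := by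
  classical
  have hnf : ¬ fre W TT fm co Wl La b o ω e := fun hf => hne (hM.DM_free hc hω heT hf)
  have hJ : cls TT fm co La b ω e ∈ JM W TT fm co Wl La b o ω :=
    mem_image_of_mem _ (mem_filter.2 ⟨heT, hnf⟩)
  refine ⟨hJ, ?_⟩
  by_cases hk : cls TT fm co La b ω e ∈ CM W TT fm co Wl La b o L iL iF ε x0 y0 ω
  · right
    have hz : ∀ h1 : VM X Cs a Bb B TT fm co ω (unc TT fm co La b ω
        (insert (cls TT fm co La b ω e) ∅)) = VM X Cs a Bb B TT fm co ω (unc TT fm co La b ω ∅),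
        False := by
      intro h1
      apply hne
      unfold DM
      have e1 : (insert (cls TT fm co La b ω e) ∅ : Finset (Finset (ℤ × ℤ))) =
        {cls TT fm co La b ω e} := rfl
      rw [e1, unc_single, unc_empty] at h1
      rw [h1, sub_self]
    have hI : cls TT fm co La b ω e ∉ Irr W TT fm co Wl La b o L iL iF ε x0 y0 ω :=
      fun h1 => hz (hC.irr hM hc hc' hω h1)
    refine mem_tops.2 ⟨mem_sdiff.2 ⟨hk, hI⟩, fun j hj => ?_⟩
    by_contra hlt
    push Not at hlt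
    have hj1 := (mem_sdiff.1 hj).1
    refine hz (hC.sh (A := ∅) hM hc' hω hk hj1 (notMem_empty _) ?_ hlt.le)
    intro h1
    rw [h1] at hlt
    exact lt_irrefl _ hlt
  · exact Or.inl hk

/-- **A class with an influence is macroscopic.** -/
theorem CnrM.DM_mac (hM : Multi X W Bb B TT fm co Wl La b o)
    (hC : Cnr W Bb B TT fm co Wl La Λ b o L iL iF ε x0 y0 h Um Vm)
    (hD : CnrM W Bb TT fm co Wl La b L iL iF ε x0 y0 h)
    (hS : Surr ε x0 y0 h L ω) (hfam : ∀ e ∈ TT, fm e = iL ∨ fm e = iF)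
    (hc : ∀ c ∈ Cs, FarM X TT fm co Wl La b o c) (hc' : ∀ c ∈ Cs, FarM X TT fm co Wl Λ b o c)
    (hω : ω ⊆ B) (heT : e ∈ TT) (hne : DM X Cs a Bb B TT fm co La b e ω ≠ 0) :
    Mac fm co La b ε x0 y0 h ω e := by
  obtain ⟨h1, h2 | h2⟩ := CnrM.DM_top hM hC hc hc' hω heT hne
  · exact hD.mac_sdiff hM hC hω hfam h1 h2 (self_cls heT)
  · exact hD.mac_top hM hC hS h2 (self_cls heT)

end Pool.Agent.H39.Q1
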