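import Mathlib
import Pool.Agent.H39.R45.CrnZ
import Pool.Agent.H39.R45.DMmac
import Pool.Agent.H59.Q1.MomM

set_option autoImplicit false
open Finset

/-! # First order expansion at a marked corner: probability of the error

`CW` : tied walls with one marked corner. `CW.fst` : the error of the first order expansion. `CW.crn` : classes
which contain a tie near an end of their wall. -/

namespace Pool.Agent.H39.R45

open Pool.Agent.H75.Perc Pool.Agent.H75.TwoArm Pool.Agent.H75.Four Pool.Agent.H69.Q1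
open Pool.Agent.Q1 Pool.Agent.H99.NC Pool.Agent.H49.Perc Pool.Agent.H60.Q1
open Pool.Agent.H39.Q1 Pool.Agent.H59.Q1 Pool.Agent.Q1.M6e Pool.Agent.H25.Q1.Add
open Pool.Agent.H20.Q1 (Eh CS hf)

variable {ι : Type} [DecidableEq ι] [Fintype ι]

/-- **Tied walls with one marked corner.** `h` : thickness of the layers near the corner, `D` : size of the
macroscopic classes. -/
structure CW (X : Pool.Agent.Q1.Env) (W Bb B TT : Finset (ℤ × ℤ)) (fm : ℤ × ℤ → ι) (co : ι → Bool)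
    (Wl La Λ : ι → Finset (ℤ × ℤ)) (b o : ℤ × ℤ → ℤ × ℤ) (L : Finset (ℤ × ℤ)) (iL iF : ι)
    (δ u0 v0 h Um Vm : ℤ) (ε : ι → Bool × Bool) (x0 : ι → ℤ × ℤ) (N : ι → ℤ) (D : ℤ) (Q : ℝ) :
    Prop where
  mul : Multi X W Bb B TT fm co Wl La b o
  cnr : Cnr W Bb B TT fm co Wl La Λ b o L iL iF δ u0 v0 h Um Vm
  cnm : CnrM W Bb TT fm co Wl La b L iL iF δ u0 v0 h
  fam : ∀ e ∈ TT, fm e = iL ∨ fm e = iF
  sur : ∀ ρ ≤ h, ∀ ω, Surr δ u0 v0 ρ L ω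
  fw : ∀ i, FW TT fm b (La i) i (ε i) (x0 i) (N i)
  wq : ∀ i, WallQ (Lx co La i (ε i)) (x0 i) (N i) D
  sep : ∀ i j, i ≠ j → Sep (Lx co La i (ε i)) (x0 i) (N i) (vpi TT fm co b i (ε i))
    (Lx co La j (ε j)) (x0 j) (N j) (vpi TT fm co b j (ε j))
  len : ∀ i, (N i : ℝ) ≤ Q * D
  D8 : 8 * D ≤ h
  cor : ∀ i, ∃ τ, (τ = 0 ∨ τ = N i) ∧ ∀ e ∈ TF TT fm i, ∀ ρ,
    (0 ≤ cU δ u0 v0 (nd (co i) (b e)) ∧ cU δ u0 v0 (nd (co i) (b e)) ≤ 2 * ρ) →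
    (0 ≤ cV δ u0 v0 (nd (co i) (b e)) ∧ cV δ u0 v0 (nd (co i) (b e)) ≤ 2 * ρ) →
    inR (wp 1 (x0 i) τ) ρ (gm (ε i) (b e))

variable {X : Pool.Agent.Q1.Env} {W Bb B TT Cs ω Ω P : Finset (ℤ × ℤ)}
  {fm : ℤ × ℤ → ι} {co : ι → Bool} {Wl La Λ : ι → Finset (ℤ × ℤ)}
  {b o : ℤ × ℤ → ℤ × ℤ} {a : ℤ × ℤ → ℂ} {s : ℤ × ℤ → ℂ} {e x y : ℤ × ℤ} {i : ι}
  {L : Finset (ℤ × ℤ)} {iL iF : ι} {δ u0 v0 h Um Vm ρ R : ℤ} {ε : ι → Bool × Bool}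
  {x0 : ι → ℤ × ℤ} {N : ι → ℤ} {D : ℤ} {Q σ : ℝ}

/-- number of classes in the views -/
noncomputable def UV (TT : Finset (ℤ × ℤ)) (fm : ℤ × ℤ → ι) (co : ι → Bool)
    (La : ι → Finset (ℤ × ℤ)) (b : ℤ × ℤ → ℤ × ℤ) (ε : ι → Bool × Bool) (x0 : ι → ℤ × ℤ)
    (N : ι → ℤ) (R : ℤ) (Ω : Finset (ℤ × ℤ)) : ℕ :=
  Pool.Agent.H59.Q1.UU univ (fun i => Lx co La i (ε i)) x0 N (fun i => vpi TT fm co b i (ε i)) co R Ω

namespace CW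

variable (h1 : CW X W Bb B TT fm co Wl La Λ b o L iL iF δ u0 v0 h Um Vm ε x0 N D Q)

include h1

lemma dBT : Disjoint B TT := h1.mul.bT.mono_left h1.mul.bB

lemma famS : FamS (qE TT σ) (B ∪ TT) σ D Q univ (fun i => Lx co La i (ε i)) x0 N
    (fun i => vpi TT fm co b i (ε i)) where
  fam := fun i _ => (h1.fw i).famQ h1.dBT (h1.mul.la i) (h1.wq i)
  sep := fun i _ j _ hij => h1.sep i j hij
  len := fun i _ => h1.len i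

lemma UM_le (hR : 4 * R ≤ ρ) : (UM TT fm co La b δ u0 v0 ρ (Ω ∩ B) (Ω ∩ TT)).card ≤
    UV TT fm co La b ε x0 N R Ω := by
  refine UM_card_le.trans ?_
  unfold UV Pool.Agent.H59.Q1.UU
  exact sum_le_sum fun i _ => (h1.fw i).card_UMi (h1.mul.la i) h1.cnr.hε hR

lemma mom_le (hσ0 : 0 ≤ σ) (hσ1 : σ ≤ 1) (hR : 4 * R ≤ ρ) :
    Ex (qE TT σ) (B ∪ TT) (fun Ω => 3 ^ (UM TT fm co La b δ u0 v0 ρ (Ω ∩ B) (Ω ∩ TT)).card *
      ind (2 ≤ (UM TT fm co La b δ u0 v0 ρ (Ω ∩ B) (Ω ∩ TT)).card)) ≤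
    Ex (qE TT σ) (B ∪ TT) (fun Ω => (3 : ℝ) ^ UV TT fm co La b ε x0 N R Ω *
      ind (2 ≤ UV TT fm co La b ε x0 N R Ω)) := by
  refine Ex_mono (qE_pb hσ0 hσ1) fun Ω _ => ?_
  have h2 := h1.UM_le (Ω := Ω) hR
  exact mul_le_mul (pow_le_pow_right₀ (by norm_num) h2) (ind_mono fun g => g.trans h2)
    (ind_nonneg _) (by positivity)

/-- a class without marks near the corner -/
lemma NZ_CZ (hρ : 4 * R ≤ h) (hn : NZ TT fm co La b δ u0 v0 h ρ (Ω ∩ B) (Ω ∩ TT)) :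
    ∃ i, ∃ τ, (τ = 0 ∨ τ = N i) ∧ CZ 1 (Lx co La i (ε i)) (x0 i) (N i) τ ρ R
      (vI TT fm co La b i (ε i) (x0 i) (N i) Ω) := by
  obtain ⟨k, hk, e, he, h2, h3⟩ := hn
  obtain ⟨τ, hτ, h4⟩ := h1.cor (fm e)
  have heT : e ∈ TT := by
    obtain ⟨g1, -, -⟩ := mem_UM.1 hk
    have : e ∈ cls TT fm co La b (Ω ∩ B) e := by
      rw [cls_of_mem g1 he]; exact he
    exact cls_sub this
  exact ⟨fm e, τ, hτ, (h1.fw (fm e)).CZ_of (h1.mul.la _) h1.cnr.hε hρ hk he rfl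
    (h4 e (mem_TF.2 ⟨heT, rfl⟩) ρ h2 h3)⟩

end CW

/-- **The error of the first order expansion.** -/
theorem cw_fst : ∃ K0 c : ℝ, 0 < K0 ∧ 0 < c ∧ c ≤ 1 ∧ ∀ (Q : ℝ) (n : ℕ), 1 ≤ Q →
    ∃ (C : ℝ) (D0 : ℤ), 0 < C ∧ ∀ {ι : Type} [DecidableEq ι] [Fintype ι], Fintype.card ι ≤ n →
    ∀ (X : Pool.Agent.Q1.Env) (W Bb B TT Cs : Finset (ℤ × ℤ)) (fm : ℤ × ℤ → ι) (co : ι → Bool)
      (Wl La Λ : ι → Finset (ℤ × ℤ)) (b o : ℤ × ℤ → ℤ × ℤ) (L : Finset (ℤ × ℤ)) (iL iF : ι)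
      (δ u0 v0 h Um Vm : ℤ) (ε : ι → Bool × Bool) (x0 : ι → ℤ × ℤ) (N : ι → ℤ) (D : ℤ)
      (rk : ℤ × ℤ → ℤ) (a s : ℤ × ℤ → ℂ) (σ M K : ℝ) (a0 : ℤ),
    CW X W Bb B TT fm co Wl La Λ b o L iL iF δ u0 v0 h Um Vm ε x0 N D Q →
    (∀ c ∈ Cs, FarM X TT fm co Wl La b o c) → (∀ c ∈ Cs, FarM X TT fm co Wl Λ b o c) →
    (∀ e ∈ TT, ∀ e' ∈ TT, rk e = rk e' → e = e') → 1 ≤ K →
    (∀ e ∈ TT, ‖s e‖ ≤ σ) → (∀ e ∈ TT, ‖1 - s e‖ ≤ K * (1 - ‖s e‖)) → 1 / 4 ≤ σ → σ < 1 →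
    (∀ ω ⊆ B, ∀ P ⊆ TT, ‖VM X Cs a Bb B TT fm co ω P‖ ≤ M) → 2 ≤ a0 →
    K0 ≤ (1 - σ) ^ ((3 : ℝ) / 2) * a0 → a0 ≤ D → D0 ≤ D →
    ‖Tot X Cs a Bb TT fm co s - Eh Bb (fun ω => U X Cs a (ω ∪ opn TT fm co TT)) -
      ∑ e ∈ TT, Eh B (fun ω => FT (TF TT fm (fm e)) b rk s e (SM TT fm co La b e ω) *
        DM X Cs a Bb B TT fm co La b e ω)‖ ≤ C * K * M * ((a0 : ℝ) / D) ^ (1 + c) := by
  obtain ⟨K1, c1, hK1, hc1, hc11, hmom⟩ := pair_moment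
  obtain ⟨K2, C2, c2, e2, hK2, hC2, hc2, hc21, he2, he21, hmid⟩ := mid_terms
  refine ⟨max K1 K2, min c1 c2, lt_max_of_lt_left hK1, lt_min hc1 hc2, (min_le_left _ _).trans hc11,
    ?_⟩
  intro Q n hQ
  obtain ⟨C1, D0, hC1, hmom⟩ := hmom Q n hQ
  refine ⟨3 * C1 + 2 * (C2 * (n : ℝ) ^ 2 * Q ^ 2 + n * (2 * (C2 * Q))), D0, by positivity, ?_⟩
  intro ι _ _ hn X W Bb B TT Cs fm co Wl La Λ b o L iL iF δ u0 v0 h Um Vm ε x0 N D rk a s σ M K a0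
    hcw hc hc' hrk hK hs hs2 hσ1 hσ2 hV ha0 hK0 haD hDD
  set c := min c1 c2 with hcdef
  have hσ0 : 0 ≤ σ := by linarith
  have hM0 : 0 ≤ M := (norm_nonneg _).trans (hV ∅ (empty_subset _) ∅ (empty_subset _))
  have hq := qE_pb (TT := TT) hσ0 hσ2.le
  have ha0' : (2 : ℝ) ≤ a0 := by exact_mod_cast ha0
  have haD' : (a0 : ℝ) ≤ D := by exact_mod_cast haD
  have hD0 : (0 : ℝ) < D := by linarith
  have hX0 : 0 < (a0 : ℝ) / D := by positivity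
  have hX1 : (a0 : ℝ) / D ≤ 1 := by rw [div_le_one hD0]; exact haD'
  set Y : ℝ := ((a0 : ℝ) / D) ^ (1 + c) with hY
  have hY0 : 0 < Y := Real.rpow_pos_of_pos hX0 _
  have hY1 : ((a0 : ℝ) / D) ^ (1 + c1) ≤ Y :=
    Real.rpow_le_rpow_of_exponent_ge hX0 hX1 (by have := min_le_left c1 c2; linarith)
  have hY2 : ((a0 : ℝ) / D) ^ (1 + c2) ≤ Y :=
    Real.rpow_le_rpow_of_exponent_ge hX0 hX1 (by have := min_le_right c1 c2; linarith)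
  have hcard : ((univ : Finset ι).card : ℝ) ≤ n := by
    rw [card_univ]; exact_mod_cast hn
  have hS := hcw.famS (σ := σ)
  set r : ℤ := ⌈(D : ℝ) * ((a0 : ℝ) / D) ^ e2⌉ with hr
  obtain ⟨har, hrD, hp1, hp2⟩ := hmid ι (qE TT σ) (B ∪ TT) σ hq hσ1 hσ2 a0 ha0
    ((le_max_right _ _).trans hK0) D Q haD hQ univ _ x0 N _ co hS r rfl
  have hm1 := hmom ι (qE TT σ) (B ∪ TT) σ hq hσ1 hσ2 a0 ha0 ((le_max_left _ _).trans hK0) D haD hDD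
    univ _ x0 N _ co (by rw [card_univ]; exact hn) hS
  have hD8 := hcw.D8
  have hrh : 8 * r ≤ h := by omega
  -- first order expansion
  have h0 := hcw.mul.first3 (rk := rk) (a := a) hcw.cnr hc hc' hrk hK
    (fun e he => (hs e he).trans hσ2.le) hs2 hV
  refine h0.trans ((CnrM.chErr_mean (ρ := 8 * r) hrh hcw.mul hcw.cnr hcw.cnm hcw.fam
    (hcw.sur h le_rfl) (hcw.sur (8 * r) hrh) hσ0 hσ2.le hs hM0 hK).trans ?_)
  -- the moment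
  have m1 : Ex (qE TT σ) (B ∪ TT) (fun Ω =>
      3 ^ (UM TT fm co La b δ u0 v0 h (Ω ∩ B) (Ω ∩ TT)).card *
        ind (2 ≤ (UM TT fm co La b δ u0 v0 h (Ω ∩ B) (Ω ∩ TT)).card)) ≤ C1 * Y := by
    refine (hcw.mom_le (R := 2 * D) hσ0 hσ2.le (by omega)).trans ?_
    exact hm1.trans (mul_le_mul_of_nonneg_left hY1 hC1.le)
  -- the intermediate scale
  have m2 : PrP (qE TT σ) (B ∪ TT) (fun Ω =>
      2 ≤ (UM TT fm co La b δ u0 v0 (8 * r) (Ω ∩ B) (Ω ∩ TT)).card ∨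
        NZ TT fm co La b δ u0 v0 h (8 * r) (Ω ∩ B) (Ω ∩ TT)) ≤
      (C2 * (n : ℝ) ^ 2 * Q ^ 2 + n * (2 * (C2 * Q))) * Y := by
    have g1 : PrP (qE TT σ) (B ∪ TT) (fun Ω =>
        2 ≤ (UM TT fm co La b δ u0 v0 (8 * r) (Ω ∩ B) (Ω ∩ TT)).card ∨
          NZ TT fm co La b δ u0 v0 h (8 * r) (Ω ∩ B) (Ω ∩ TT)) ≤
        PrP (qE TT σ) (B ∪ TT) (fun Ω => 2 ≤ UV TT fm co La b ε x0 N (2 * r) Ω ∨
          ∃ i ∈ (univ : Finset ι), (CZ 1 (Lx co La i (ε i)) (x0 i) (N i) 0 (8 * r) (2 * D)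
            (vI TT fm co La b i (ε i) (x0 i) (N i) Ω) ∨
            CZ 1 (Lx co La i (ε i)) (x0 i) (N i) (N i) (8 * r) (2 * D)
            (vI TT fm co La b i (ε i) (x0 i) (N i) Ω))) := by
      refine PrP_mono hq fun Ω _ hΩ => ?_
      rcases hΩ with g | g
      · exact Or.inl (g.trans (hcw.UM_le (by omega)))
      · right
        obtain ⟨i, τ, hτ, g2⟩ := hcw.NZ_CZ (R := 2 * D) (by omega) g
        rcases hτ with rfl | rfl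
        · exact ⟨i, mem_univ _, Or.inl g2⟩
        · exact ⟨i, mem_univ _, Or.inr g2⟩
    refine g1.trans ((PrP_or_le hq _ _ _).trans ?_)
    rw [add_mul]
    refine add_le_add ?_ ?_
    · refine hp1.trans ?_
      have g3 : C2 * ((univ : Finset ι).card : ℝ) ^ 2 * Q ^ 2 ≤ C2 * (n : ℝ) ^ 2 * Q ^ 2 :=
        mul_le_mul_of_nonneg_right (mul_le_mul_of_nonneg_left
          (pow_le_pow_left₀ (Nat.cast_nonneg _) hcard 2) hC2.le) (by positivity)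
      exact mul_le_mul g3 hY2 (by positivity) (by positivity)
    · refine (PrP_exists_le hq _ _ _).trans ?_
      have g4 : ∀ i ∈ (univ : Finset ι), PrP (qE TT σ) (B ∪ TT) (fun Ω =>
          CZ 1 (Lx co La i (ε i)) (x0 i) (N i) 0 (8 * r) (2 * D)
            (vI TT fm co La b i (ε i) (x0 i) (N i) Ω) ∨
            CZ 1 (Lx co La i (ε i)) (x0 i) (N i) (N i) (8 * r) (2 * D)
            (vI TT fm co La b i (ε i) (x0 i) (N i) Ω)) ≤ 2 * (C2 * Q) * Y := by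
        intro i _
        refine (PrP_or_le hq _ _ _).trans ?_
        have g5 := hp2 i (mem_univ _) 0 (Or.inl rfl)
        have g6 := hp2 i (mem_univ _) (N i) (Or.inr rfl)
        have g7 : C2 * Q * ((a0 : ℝ) / D) ^ (1 + c2) ≤ C2 * Q * Y :=
          mul_le_mul_of_nonneg_left hY2 (by positivity)
        have g8 := g5.trans g7
        have g9 := g6.trans g7
        calc _ ≤ C2 * Q * Y + C2 * Q * Y := add_le_add g8 g9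
          _ = _ := by ring
      refine (sum_le_sum g4).trans ?_
      rw [sum_const, nsmul_eq_mul]
      have : 0 ≤ 2 * (C2 * Q) * Y := by positivity
      calc ((univ : Finset ι).card : ℝ) * (2 * (C2 * Q) * Y) ≤ n * (2 * (C2 * Q) * Y) :=
            mul_le_mul_of_nonneg_right hcard this
        _ = _ := by ring
  have m3 : (2 * K + 1) * M * Ex (qE TT σ) (B ∪ TT) (fun Ω =>
      3 ^ (UM TT fm co La b δ u0 v0 h (Ω ∩ B) (Ω ∩ TT)).card *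
        ind (2 ≤ (UM TT fm co La b δ u0 v0 h (Ω ∩ B) (Ω ∩ TT)).card)) ≤
      3 * K * M * (C1 * Y) := by
    refine mul_le_mul (mul_le_mul_of_nonneg_right (by linarith) hM0) m1 ?_ (by positivity)
    have := Ex_mono (E := B ∪ TT) hq (f := fun _ => (0 : ℝ)) (g := fun Ω =>
      3 ^ (UM TT fm co La b δ u0 v0 h (Ω ∩ B) (Ω ∩ TT)).card *
        ind (2 ≤ (UM TT fm co La b δ u0 v0 h (Ω ∩ B) (Ω ∩ TT)).card))
      (fun Ω _ => mul_nonneg (by positivity) (ind_nonneg _))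
    rwa [Ex_const] at this
  have m4 : (K + 1) * M * PrP (qE TT σ) (B ∪ TT) (fun Ω =>
      2 ≤ (UM TT fm co La b δ u0 v0 (8 * r) (Ω ∩ B) (Ω ∩ TT)).card ∨
        NZ TT fm co La b δ u0 v0 h (8 * r) (Ω ∩ B) (Ω ∩ TT)) ≤
      2 * K * M * ((C2 * (n : ℝ) ^ 2 * Q ^ 2 + n * (2 * (C2 * Q))) * Y) :=
    mul_le_mul (mul_le_mul_of_nonneg_right (by linarith) hM0) m2 (PrP_nonneg hq _ _)
      (by positivity)
  refine (add_le_add m3 m4).trans (le_of_eq ?_)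
  ring

/-- **Classes which contain a tie near an end of their wall.** -/
theorem cw_crn : ∃ K0 c : ℝ, 0 < K0 ∧ 0 < c ∧ c ≤ 1 ∧ ∀ (Q : ℝ) (n : ℕ), 1 ≤ Q →
    ∃ (C : ℝ) (D0 : ℤ), 0 < C ∧ ∀ {ι : Type} [DecidableEq ι] [Fintype ι], Fintype.card ι ≤ n →
    ∀ (X : Pool.Agent.Q1.Env) (W Bb B TT : Finset (ℤ × ℤ)) (fm : ℤ × ℤ → ι) (co : ι → Bool)
      (Wl La Λ : ι → Finset (ℤ × ℤ)) (b o : ℤ × ℤ → ℤ × ℤ) (L : Finset (ℤ × ℤ)) (iL iF : ι)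
      (δ u0 v0 h Um Vm : ℤ) (ε : ι → Bool × Bool) (x0 : ι → ℤ × ℤ) (N : ι → ℤ) (D : ℤ)
      (rk : ℤ × ℤ → ℤ) (σ : ℝ) (a0 ρ1 : ℤ) (i : ι) (FlT : Finset (ℤ × ℤ)),
    CW X W Bb B TT fm co Wl La Λ b o L iL iF δ u0 v0 h Um Vm ε x0 N D Q →
    (∀ e ∈ TT, ∀ e' ∈ TT, rk e = rk e' → e = e') →
    (∀ e ∈ TF TT fm i, e ∉ FlT → inR (wp 1 (x0 i) 0) ρ1 (gm (ε i) (b e)) ∨
      inR (wp 1 (x0 i) (N i)) ρ1 (gm (ε i) (b e))) →
    1 / 4 ≤ σ → σ < 1 → 2 ≤ a0 → K0 ≤ (1 - σ) ^ ((3 : ℝ) / 2) * a0 → a0 ≤ ρ1 → 16 * ρ1 ≤ D →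
    D0 ≤ D →
    Ex hf B (fun ω => ∑ e ∈ TF TT fm i, crn TT fm co La b rk
      (fun ω e => Mac fm co La b δ u0 v0 h ω e) FlT σ e ω) ≤
      C * ((a0 : ℝ) / D) * ((ρ1 : ℝ) / D) ^ c := by
  obtain ⟨K1, c1, hK1, hc1, hc11, hmom⟩ := pair_moment
  obtain ⟨K2, C2, c2, hK2, hC2, hc2, hc21, hcz⟩ := corner_zone'
  refine ⟨max K1 K2, min c1 c2, lt_max_of_lt_left hK1, lt_min hc1 hc2, (min_le_left _ _).trans hc11,
    ?_⟩
  intro Q n hQ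
  obtain ⟨C1, D0, hC1, hmom⟩ := hmom Q n hQ
  refine ⟨2 * (C2 * Q) + C1, D0, by positivity, ?_⟩
  intro ι _ _ hn X W Bb B TT fm co Wl La Λ b o L iL iF δ u0 v0 h Um Vm ε x0 N D rk σ a0 ρ1 i FlT hcw
    hrk hz hσ1 hσ2 ha0 hK0 haρ hρD hDD
  set c := min c1 c2 with hcdef
  have hσ0 : 0 ≤ σ := by linarith
  have hq := qE_pb (TT := TT) hσ0 hσ2.le
  have hc0 : 0 < c := lt_min hc1 hc2
  have ha0' : (2 : ℝ) ≤ a0 := by exact_mod_cast ha0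
  have haρ' : (a0 : ℝ) ≤ ρ1 := by exact_mod_cast haρ
  have hρD' : (ρ1 : ℝ) ≤ D := by exact_mod_cast (by omega : ρ1 ≤ D)
  have hD0 : (0 : ℝ) < D := by linarith
  have hX0 : 0 < (a0 : ℝ) / D := by positivity
  have hX1 : (a0 : ℝ) / D ≤ 1 := by rw [div_le_one hD0]; linarith
  have hr0 : 0 < (ρ1 : ℝ) / D := div_pos (by linarith) hD0
  have hr1 : (ρ1 : ℝ) / D ≤ 1 := by rw [div_le_one hD0]; exact hρD'
  have har : (a0 : ℝ) / D ≤ ρ1 / D := div_le_div_of_nonneg_right haρ' hD0.le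
  have hD8 := hcw.D8
  have hS := hcw.famS (σ := σ)
  have hm1 := hmom ι (qE TT σ) (B ∪ TT) σ hq hσ1 hσ2 a0 ha0 ((le_max_left _ _).trans hK0) D
    (by omega) hDD univ _ x0 N _ co (by rw [card_univ]; exact hn) hS
  have h0 := (hcw.fw i).crn_mean (co := co) (FlT := FlT) (δ := δ) (u0 := u0) (v0 := v0) (R := 2 * D) hcw.dBT
    (hcw.mul.la i) hcw.cnr.hε (by omega : 4 * (2 * D) ≤ h) hσ0 hσ2.le hrk hz
  refine h0.trans ?_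
  have hF := (hcw.fw i).famQ (co := co) (σ := σ) hcw.dBT (hcw.mul.la i) (hcw.wq i)
  have hcz' : ∀ τ : ℤ, (τ = 0 ∨ τ = N i) → PrP (qE TT σ) (B ∪ TT) (fun Ω =>
      CZ 1 (Lx co La i (ε i)) (x0 i) (N i) τ ρ1 (2 * D)
        (vI TT fm co La b i (ε i) (x0 i) (N i) Ω)) ≤
      C2 * Q * (((a0 : ℝ) / D) * ((ρ1 : ℝ) / D) ^ c) := by
    intro τ hτ
    have g1 := hF.law (cc := co i) (fun ζ => CZ 1 (Lx co La i (ε i)) (x0 i) (N i) τ ρ1 (2 * D) ζ)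
    unfold vI
    rw [g1]
    refine (hcz _ _ _ D (hcw.wq i) σ hσ1 hσ2 a0 ha0 ((le_max_right _ _).trans hK0) ρ1 haρ hρD τ
      hτ).trans ?_
    have g2 : (N i : ℝ) / D ≤ Q := by rw [div_le_iff₀ hD0]; exact hcw.len i
    have g3 : ((ρ1 : ℝ) / D) ^ c2 ≤ ((ρ1 : ℝ) / D) ^ c :=
      Real.rpow_le_rpow_of_exponent_ge hr0 hr1 (min_le_right _ _)
    rw [mul_assoc]
    refine mul_le_mul (mul_le_mul_of_nonneg_left g2 hC2.le)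
      (mul_le_mul_of_nonneg_left g3 hX0.le) (by positivity) (by positivity)
  have m1 : Ex (qE TT σ) (B ∪ TT) (fun Ω =>
      3 ^ (UM TT fm co La b δ u0 v0 h (Ω ∩ B) (Ω ∩ TT)).card *
        ind (2 ≤ (UM TT fm co La b δ u0 v0 h (Ω ∩ B) (Ω ∩ TT)).card)) ≤
      C1 * (((a0 : ℝ) / D) * ((ρ1 : ℝ) / D) ^ c) := by
    refine (hcw.mom_le (R := 2 * D) hσ0 hσ2.le (by omega)).trans (hm1.trans ?_)
    refine mul_le_mul_of_nonneg_left ?_ hC1.le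
    rw [Real.rpow_add hX0, Real.rpow_one]
    refine mul_le_mul_of_nonneg_left ?_ hX0.le
    calc ((a0 : ℝ) / D) ^ c1 ≤ ((a0 : ℝ) / D) ^ c :=
          Real.rpow_le_rpow_of_exponent_ge hX0 hX1 (min_le_left _ _)
      _ ≤ ((ρ1 : ℝ) / D) ^ c := Real.rpow_le_rpow hX0.le har hc0.le
  refine (add_le_add (add_le_add (hcz' 0 (Or.inl rfl)) (hcz' (N i) (Or.inr rfl))) m1).trans
    (le_of_eq ?_)
  ring

end Pool.Agent.H39.R45
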