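import Mathlib
import Pool.Agent.H39.R45.FstG
import Pool.Agent.Q1.M6e.Pieces

set_option autoImplicit false
open Finset

/-! # The fields `irr`, `fst`, `crn` of `Fine`

`CDat` : the geometry of one environment. `cdat_irr`, `cdat_fst`, `cdat_crn`. -/

namespace Pool.Agent.H39.R45

open Pool.Agent.H75.Perc Pool.Agent.H75.TwoArm Pool.Agent.H75.Four Pool.Agent.H69.Q1
open Pool.Agent.Q1 Pool.Agent.H99.NC Pool.Agent.H49.Perc Pool.Agent.H60.Q1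
open Pool.Agent.H39.Q1 Pool.Agent.H59.Q1 Pool.Agent.Q1.M6e Pool.Agent.H25.Q1.Add
open Pool.Agent.H20.Q1 (Eh CS hf)

/-- **Geometry of one environment**: walls with one marked corner of scale `h`, macroscopic scale `D`. -/
structure CDat (d : Dat) (Cs : Finset (ℤ × ℤ)) (Λ : Bool → Finset (ℤ × ℤ)) (L : Finset (ℤ × ℤ))
    (iL iF : Bool) (δ u0 v0 h Um Vm : ℤ) (x0 : Bool → ℤ × ℤ) (N : Bool → ℤ) (D : ℤ) (Q : ℝ) :
    Prop where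
  cw : CW d.X d.W d.Bb d.B d.TT d.fm id d.Wl d.La Λ d.b d.o L iL iF δ u0 v0 h Um Vm d.ε x0 N D Q
  far : ∀ c ∈ Cs, FarM d.X d.TT d.fm id d.Wl d.La d.b d.o c
  far' : ∀ c ∈ Cs, FarM d.X d.TT d.fm id d.Wl Λ d.b d.o c
  rk : ∀ e ∈ d.TT, ∀ e' ∈ d.TT, d.rk e = d.rk e' → e = e'

/-- a class with an influence is macroscopic -/
theorem cdat_irr {d : Dat} {Cs : Finset (ℤ × ℤ)} {Λ : Bool → Finset (ℤ × ℤ)} {L : Finset (ℤ × ℤ)}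
    {iL iF : Bool} {δ u0 v0 h Um Vm : ℤ} {x0 : Bool → ℤ × ℤ} {N : Bool → ℤ} {D : ℤ} {Q : ℝ}
    (hd : CDat d Cs Λ L iL iF δ u0 v0 h Um Vm x0 N D Q) (a : ℤ × ℤ → ℂ) {ω : Finset (ℤ × ℤ)}
    (hω : ω ⊆ d.B) {e : ℤ × ℤ} (he : e ∈ d.TT)
    (hne : DM d.X Cs a d.Bb d.B d.TT d.fm id d.La d.b e ω ≠ 0) :
    Mac d.fm id d.La d.b δ u0 v0 h ω e :=
  CnrM.DM_mac hd.cw.mul hd.cw.cnr hd.cw.cnm (hd.cw.sur h le_rfl ω) hd.cw.fam hd.far hd.far' hω he hne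

/-- the weights -/
theorem wt_max {s : Bool → ℂ} {K0 : ℝ} {a0 : ℤ} (hK0 : 0 < K0) (h1 : ∀ i, ‖s i‖ < 1) (ha : 2 ≤ a0)
    (h2 : ∀ i, 2 * K0 ≤ (1 - ‖s i‖) ^ ((3 : ℝ) / 2) * a0) :
    ∃ σ : ℝ, (∀ i, ‖s i‖ ≤ σ) ∧ 1 / 4 ≤ σ ∧ σ < 1 ∧ K0 ≤ (1 - σ) ^ ((3 : ℝ) / 2) * a0 := by
  have ha' : (2 : ℝ) ≤ a0 := by exact_mod_cast ha
  have h14 : K0 ≤ (1 - 1 / 4 : ℝ) ^ ((3 : ℝ) / 2) * a0 := by
    have g1 : (1 - ‖s true‖) ^ ((3 : ℝ) / 2) ≤ 1 :=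
      Real.rpow_le_one (by have := h1 true; linarith) (by have := norm_nonneg (s true); linarith)
        (by norm_num)
    have g2 : 2 * K0 ≤ a0 := (h2 true).trans (by nlinarith)
    have g3 : (1 / 2 : ℝ) ≤ (1 - 1 / 4 : ℝ) ^ ((3 : ℝ) / 2) := by
      have : (1 - 1 / 4 : ℝ) ^ (2 : ℝ) ≤ (1 - 1 / 4 : ℝ) ^ ((3 : ℝ) / 2) :=
        Real.rpow_le_rpow_of_exponent_ge (by norm_num) (by norm_num) (by norm_num)
      refine le_trans ?_ this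
      rw [show (2 : ℝ) = ((2 : ℕ) : ℝ) by norm_num, Real.rpow_natCast]
      norm_num
    nlinarith
  refine ⟨max (max ‖s false‖ ‖s true‖) (1 / 4), ?_, le_max_right _ _, ?_, ?_⟩
  · intro i
    cases i
    · exact (le_max_left _ _).trans (le_max_left _ _)
    · exact (le_max_right _ _).trans (le_max_left _ _)
  · exact max_lt (max_lt (h1 false) (h1 true)) (by norm_num)
  · rcases max_choice (max ‖s false‖ ‖s true‖) (1 / 4 : ℝ) with h | h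
    · rw [h]
      rcases max_choice ‖s false‖ ‖s true‖ with h' | h'
      · rw [h']; have := h2 false; linarith
      · rw [h']; have := h2 true; linarith
    · rw [h]; exact h14

/-- **The first order expansion.** -/
theorem cdat_fst : ∃ K0 c : ℝ, 0 < K0 ∧ 0 < c ∧ ∀ Q : ℝ, 1 ≤ Q →
    ∃ (C : ℝ) (D0 : ℤ), 0 < C ∧ ∀ (d : Dat) (Cs : Finset (ℤ × ℤ)) (Λ : Bool → Finset (ℤ × ℤ))
      (L : Finset (ℤ × ℤ)) (iL iF : Bool) (δ u0 v0 h Um Vm : ℤ) (x0 : Bool → ℤ × ℤ)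
      (N : Bool → ℤ) (D : ℤ), CDat d Cs Λ L iL iF δ u0 v0 h Um Vm x0 N D Q → D0 ≤ D →
    ∀ (a : ℤ × ℤ → ℂ) (M : ℝ), d.HV Cs a M → ∀ (s : Bool → ℂ) (a0 : ℤ),
    (∀ i, ‖s i‖ < 1) → (∀ i, ‖1 - s i‖ ≤ 16 * (1 - ‖s i‖)) → 2 ≤ a0 → a0 ≤ D →
    (∀ i, K0 ≤ (1 - ‖s i‖) ^ ((3 : ℝ) / 2) * a0) →
    ‖d.tot Cs a s - d.tot0 Cs a - d.fst Cs a s‖ ≤ C * M * ((a0 : ℝ) / D) ^ (1 + c) := by
  obtain ⟨K0, c, hK0, hc, -, hmain⟩ := cw_fst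
  refine ⟨2 * K0, c, by positivity, hc, ?_⟩
  intro Q hQ
  obtain ⟨C, D0, hC, hmain⟩ := hmain Q 2 hQ
  refine ⟨C * 16, D0, by positivity, ?_⟩
  intro d Cs Λ L iL iF δ u0 v0 h Um Vm x0 N D hd hD a M hV s a0 hs1 hs2 ha haD hKs
  obtain ⟨σ, g1, g2, g3, g4⟩ := wt_max hK0 hs1 ha hKs
  have h0 := hmain (ι := Bool) (by simp) d.X d.W d.Bb d.B d.TT Cs d.fm id d.Wl d.La Λ d.b d.o L
    iL iF δ u0 v0 h Um Vm d.ε x0 N D d.rk a (fun e => s (d.fm e)) σ M 16 a0 hd.cw hd.far hd.far'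
    hd.rk (by norm_num) (fun e _ => g1 _) (fun e _ => hs2 _) g2 g3 hV ha g4 haD hD
  exact h0

/-- **Classes near the ends of the walls.** -/
theorem cdat_crn : ∃ K0 c : ℝ, 0 < K0 ∧ 0 < c ∧ ∀ Q : ℝ, 1 ≤ Q →
    ∃ (C : ℝ) (D0 : ℤ), 0 < C ∧ ∀ (d : Dat) (Cs : Finset (ℤ × ℤ)) (Λ : Bool → Finset (ℤ × ℤ))
      (L : Finset (ℤ × ℤ)) (iL iF : Bool) (δ u0 v0 h Um Vm : ℤ) (x0 : Bool → ℤ × ℤ)
      (N : Bool → ℤ) (D : ℤ), CDat d Cs Λ L iL iF δ u0 v0 h Um Vm x0 N D Q → D0 ≤ D →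
    ∀ (i : Bool) (FlT : Finset (ℤ × ℤ)) (σ : ℝ) (a0 ρ1 : ℤ),
    (∀ e ∈ TF d.TT d.fm i, e ∉ FlT → inR (wp 1 (x0 i) 0) ρ1 (gm (d.ε i) (d.b e)) ∨
      inR (wp 1 (x0 i) (N i)) ρ1 (gm (d.ε i) (d.b e))) → 1 / 4 ≤ σ → σ < 1 →
    2 ≤ a0 → K0 ≤ (1 - σ) ^ ((3 : ℝ) / 2) * a0 → a0 ≤ ρ1 → 16 * ρ1 ≤ D →
    Ex hf d.B (fun ω => ∑ e ∈ TF d.TT d.fm i, crn d.TT d.fm id d.La d.b d.rk
      (fun ω e => Mac d.fm id d.La d.b δ u0 v0 h ω e) FlT σ e ω) ≤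
      C * ((a0 : ℝ) / D) * ((ρ1 : ℝ) / D) ^ c := by
  obtain ⟨K0, c, hK0, hc, -, hmain⟩ := cw_crn
  refine ⟨K0, c, hK0, hc, ?_⟩
  intro Q hQ
  obtain ⟨C, D0, hC, hmain⟩ := hmain Q 2 hQ
  refine ⟨C, D0, hC, ?_⟩
  intro d Cs Λ L iL iF δ u0 v0 h Um Vm x0 N D hd hD i FlT σ a0 ρ1 hz h1 h2 ha hK h3 h4
  exact hmain (ι := Bool) (by simp) d.X d.W d.Bb d.B d.TT d.fm id d.Wl d.La Λ d.b d.o L
    iL iF δ u0 v0 h Um Vm d.ε x0 N D d.rk σ a0 ρ1 i FlT hd.cw hd.rk hz h1 h2 ha hK h3 h4 hD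

/-- **The fields `irr`, `fst`, `crn`** in the scale `R`, for all windows `R'` with `4096 R' ≤ η R`. -/
theorem fineC : ∃ K c : ℝ, 0 < K ∧ 0 < c ∧ ∀ (η Q : ℝ), 0 < η → η ≤ 1 → 1 ≤ Q →
    ∃ (C : ℝ) (R1 : ℕ), 0 < C ∧ ∀ (d : Dat) (Cs : Finset (ℤ × ℤ)) (Λ : Bool → Finset (ℤ × ℤ))
      (L : Finset (ℤ × ℤ)) (iL iF : Bool) (δ u0 v0 Um Vm : ℤ) (x0 : Bool → ℤ × ℤ)
      (N : Bool → ℤ) (R : ℕ) (R' : ℤ) (FlT : Bool → Finset (ℤ × ℤ)), R1 ≤ R → (R1 : ℤ) ≤ R' →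
    4096 * (R' : ℝ) ≤ η * R →
    CDat d Cs Λ L iL iF δ u0 v0 (mE η R) Um Vm x0 N (mE η R / 8) Q →
    (∀ i, ∀ e ∈ TF d.TT d.fm i, e ∉ FlT i → inR (wp 1 (x0 i) 0) (R' + 3) (gm (d.ε i) (d.b e)) ∨
      inR (wp 1 (x0 i) (N i)) (R' + 3) (gm (d.ε i) (d.b e))) →
    (∀ (a : ℤ × ℤ → ℂ), ∀ ω ⊆ d.B, ∀ e ∈ d.TT,
      DM d.X Cs a d.Bb d.B d.TT d.fm id d.La d.b e ω ≠ 0 →
      Mac d.fm id d.La d.b δ u0 v0 (mE η R) ω e) ∧
    (∀ (a : ℤ × ℤ → ℂ) (M : ℝ), d.HV Cs a M → ∀ (s : Bool → ℂ) (a0 : ℤ),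
      (∀ i, ‖s i‖ < 1) → (∀ i, ‖1 - s i‖ ≤ 16 * (1 - ‖s i‖)) → 2 ≤ a0 → a0 ≤ R' →
      (∀ i, K ≤ (1 - ‖s i‖) ^ ((3 : ℝ) / 2) * a0) →
      ‖d.tot Cs a s - d.tot0 Cs a - d.fst Cs a s‖ ≤ C * M * ((a0 : ℝ) / R) ^ (1 + c)) ∧
    (∀ (i : Bool) (σ : ℝ) (a0 : ℤ), 1 / 4 ≤ σ → σ < 1 → 2 ≤ a0 → a0 ≤ R' →
      K ≤ (1 - σ) ^ ((3 : ℝ) / 2) * a0 →
      Ex hf d.B (fun ω => ∑ e ∈ TF d.TT d.fm i, crn d.TT d.fm id d.La d.b d.rk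
        (fun ω e => Mac d.fm id d.La d.b δ u0 v0 (mE η R) ω e) (FlT i) σ e ω) ≤
        C * ((a0 : ℝ) / R) * ((R' : ℝ) / R) ^ c) := by
  obtain ⟨K1, c1, hK1, hc1, h1⟩ := cdat_fst
  obtain ⟨K2, c2, hK2, hc2, h2⟩ := cdat_crn
  refine ⟨max K1 K2, min c1 c2, lt_max_of_lt_left hK1, lt_min hc1 hc2, ?_⟩
  set c := min c1 c2 with hcdef
  have hc0 : 0 < c := lt_min hc1 hc2
  intro η Q hη hη1 hQ
  obtain ⟨C1, D1, hC1, h1⟩ := h1 Q hQ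
  obtain ⟨C2, D2, hC2, h2⟩ := h2 Q hQ
  -- the constants
  set A : ℝ := 64 / η with hA
  have hA0 : 0 < A := by positivity
  have hA1 : 1 ≤ A := by rw [hA, le_div_iff₀ hη]; linarith
  refine ⟨C1 * A ^ (1 + c) + C2 * A * (4 * A) ^ c,
    ⌈64 / η * (|(D1 : ℝ)| + |(D2 : ℝ)| + 16)⌉₊, by positivity, ?_⟩
  intro d Cs Λ L iL iF δ u0 v0 Um Vm x0 N R R' FlT hR hR' hR4 hd hz
  have hRr : 64 / η * (|(D1 : ℝ)| + |(D2 : ℝ)| + 16) ≤ R :=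
    (Nat.le_ceil _).trans (by exact_mod_cast hR)
  have hRη : 64 * (|(D1 : ℝ)| + |(D2 : ℝ)| + 16) ≤ η * R := by
    rw [div_mul_eq_mul_div, div_le_iff₀ hη] at hRr
    linarith
  have a1 := abs_nonneg (D1 : ℝ)
  have a2 := abs_nonneg (D2 : ℝ)
  have hR0 : (0 : ℝ) < R := by
    by_contra hcon
    have : (R : ℝ) ≤ 0 := not_lt.1 hcon
    nlinarith
  set D : ℤ := mE η R / 8 with hDdef
  have hDr : η * R ≤ 64 * D := by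
    have g1 : η * R / 4 < mE η R + 1 := by unfold mE; exact Int.lt_floor_add_one _
    have g2 : mE η R ≤ 8 * D + 7 := by omega
    have g3 : (mE η R : ℝ) ≤ 8 * D + 7 := by exact_mod_cast g2
    linarith
  have hD0 : (0 : ℝ) < D := by
    have : 0 < η * R := by positivity
    linarith
  have hD1 : D1 ≤ D := by
    have : (D1 : ℝ) ≤ D := by have := le_abs_self (D1 : ℝ); linarith
    exact_mod_cast this
  have hD2 : D2 ≤ D := by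
    have : (D2 : ℝ) ≤ D := by have := le_abs_self (D2 : ℝ); linarith
    exact_mod_cast this
  have hR1' : (16 : ℤ) ≤ R' := by
    refine le_trans ?_ hR'
    have : (16 : ℝ) ≤ (⌈64 / η * (|(D1 : ℝ)| + |(D2 : ℝ)| + 16)⌉₊ : ℕ) := by
      refine le_trans ?_ (Nat.le_ceil _)
      have g1 : (64 : ℝ) ≤ 64 / η := by rw [le_div_iff₀ hη]; linarith
      nlinarith
    exact_mod_cast this
  have hR1r : (16 : ℝ) ≤ R' := by exact_mod_cast hR1'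
  have h16 : 16 * (R' + 3) ≤ D := by
    have : 16 * ((R' : ℝ) + 3) ≤ D := by linarith
    exact_mod_cast this
  have hinv : ∀ {x : ℝ}, 0 ≤ x → x / D ≤ A * (x / R) := by
    intro x hx
    rw [hA, div_mul_div_comm, div_le_div_iff₀ hD0 (by positivity)]
    nlinarith [mul_le_mul_of_nonneg_left hDr hx]
  refine ⟨fun a ω hω e he hne => cdat_irr hd a hω he hne, ?_, ?_⟩
  · intro a M hV s a0 hs1 hs2 ha haR hK
    have ha' : (2 : ℝ) ≤ a0 := by exact_mod_cast ha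
    have hM : 0 ≤ M := (norm_nonneg _).trans (hV ∅ (empty_subset _) ∅ (empty_subset _))
    refine (h1 d Cs Λ L iL iF δ u0 v0 _ Um Vm x0 N D hd hD1 a M hV s a0 hs1 hs2 ha (by omega)
      (fun i => (le_max_left _ _).trans (hK i))).trans ?_
    have haD : (a0 : ℝ) / D ≤ 1 := by
      rw [div_le_one hD0]
      exact_mod_cast (by omega : a0 ≤ D)
    have haD0 : 0 < (a0 : ℝ) / D := by positivity
    have g1 : ((a0 : ℝ) / D) ^ (1 + c1) ≤ ((a0 : ℝ) / D) ^ (1 + c) :=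
      Real.rpow_le_rpow_of_exponent_ge haD0 haD (by have := min_le_left c1 c2; linarith)
    have g2 : ((a0 : ℝ) / D) ^ (1 + c) ≤ (A * (a0 / R)) ^ (1 + c) :=
      Real.rpow_le_rpow haD0.le (hinv (by linarith)) (by linarith)
    rw [Real.mul_rpow hA0.le (by positivity)] at g2
    have g3 : 0 ≤ C2 * A * (4 * A) ^ c := by positivity
    have g4 : 0 ≤ ((a0 : ℝ) / R) ^ (1 + c) := by positivity
    calc C1 * M * ((a0 : ℝ) / D) ^ (1 + c1) ≤ C1 * M * (A ^ (1 + c) * (a0 / R) ^ (1 + c)) :=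
          mul_le_mul_of_nonneg_left (g1.trans g2) (by positivity)
      _ = C1 * A ^ (1 + c) * M * (a0 / R) ^ (1 + c) := by ring
      _ ≤ _ := by
        refine mul_le_mul_of_nonneg_right ?_ g4
        exact mul_le_mul_of_nonneg_right (by linarith) hM
  · intro i σ a0 hσ1 hσ2 ha haR hK
    have ha' : (2 : ℝ) ≤ a0 := by exact_mod_cast ha
    refine (h2 d Cs Λ L iL iF δ u0 v0 _ Um Vm x0 N D hd hD2 i (FlT i) σ a0 (R' + 3) (hz i) hσ1 hσ2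
      ha ((le_max_right _ _).trans hK) (by omega) h16).trans ?_
    have g1 : (a0 : ℝ) / D ≤ A * (a0 / R) := hinv (by linarith)
    have hρ1 : (((R' + 3 : ℤ) : ℝ)) / D ≤ 1 := by
      rw [div_le_one hD0]
      exact_mod_cast (by omega : R' + 3 ≤ D)
    have hρ0 : 0 < (((R' + 3 : ℤ) : ℝ)) / D := by
      push_cast
      exact div_pos (by linarith) hD0
    have g2 : (((R' + 3 : ℤ) : ℝ) / D) ^ c2 ≤ (((R' + 3 : ℤ) : ℝ) / D) ^ c :=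
      Real.rpow_le_rpow_of_exponent_ge hρ0 hρ1 (min_le_right c1 c2)
    have g3 : ((R' + 3 : ℤ) : ℝ) / D ≤ 4 * A * (R' / R) := by
      push_cast
      have g4 := hinv (x := 4 * (R' : ℝ)) (by linarith)
      calc ((R' : ℝ) + 3) / D ≤ 4 * R' / D := div_le_div_of_nonneg_right (by linarith) hD0.le
        _ ≤ A * (4 * R' / R) := g4
        _ = _ := by ring
    have g5 : (((R' + 3 : ℤ) : ℝ) / D) ^ c ≤ (4 * A) ^ c * ((R' : ℝ) / R) ^ c := by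
      rw [← Real.mul_rpow (by positivity) (by positivity)]
      exact Real.rpow_le_rpow hρ0.le g3 hc0.le
    have g6 : 0 ≤ (4 * A) ^ c * ((R' : ℝ) / R) ^ c := by positivity
    calc C2 * ((a0 : ℝ) / D) * (((R' + 3 : ℤ) : ℝ) / D) ^ c2 ≤
          C2 * (A * (a0 / R)) * ((4 * A) ^ c * ((R' : ℝ) / R) ^ c) := by
          refine mul_le_mul (mul_le_mul_of_nonneg_left g1 hC2.le) (g2.trans g5) (by positivity)
            (by positivity)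
      _ = C2 * A * (4 * A) ^ c * (a0 / R) * (R' / R) ^ c := by ring
      _ ≤ _ := by
        have g7 : 0 ≤ C1 * A ^ (1 + c) := by positivity
        have g8 : (0 : ℝ) ≤ (a0 : ℝ) / R := by positivity
        refine mul_le_mul_of_nonneg_right (mul_le_mul_of_nonneg_right (by linarith) g8)
          (by positivity)

end Pool.Agent.H39.R45
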