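import Mathlib
import Pool.Agent.H39.R45.FineC
import Pool.Agent.H39.Q1.SurrI
import Pool.Agent.H54.R45.CnrL
import Pool.Agent.H54.R45.CnrU
import Pool.Agent.Q1.M6e.FineA

set_option autoImplicit false
open Finset

/-! # `CDat` for the 45 degree rectangles

`WG` : the geometry of the walls. `cdatL`, `cdatU` : the marked corners. -/

namespace Pool.Agent.H39.R45

open Pool.Agent.H75.Perc Pool.Agent.H75.TwoArm Pool.Agent.H69.Q1
open Pool.Agent.H75.Four hiding ev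
open Pool.Agent.Q1 Pool.Agent.H99.NC Pool.Agent.H49.Perc Pool.Agent.H60.Q1
open Pool.Agent.H39.Q1 Pool.Agent.H59.Q1 Pool.Agent.Q1.M6e Pool.Agent.H25.Q1.Add
open Pool.Agent.H20.Q1 (Eh CS hf)
open Pool.Agent.H33.Q1 Pool.Agent.H74.R45 Pool.Agent.H13.R45 Pool.Agent.H13.Q1
open Pool.Agent.H64.Q1
open Pool.Agent.H95.R45 (Sc)
open Pool.Agent.H54.R45

/-- the geometry of the walls of one environment -/
structure WG (d : Dat) (δ u0 v0 : ℤ) (x0 : Bool → ℤ × ℤ) (N : Bool → ℤ) (D : ℤ) (Q : ℝ) : Prop where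
  fw : ∀ i, FW d.TT d.fm d.b (d.La i) i (d.ε i) (x0 i) (N i)
  wq : ∀ i, WallQ (Lx id d.La i (d.ε i)) (x0 i) (N i) D
  sep : ∀ i j, i ≠ j → Sep (Lx id d.La i (d.ε i)) (x0 i) (N i) (vpi d.TT d.fm id d.b i (d.ε i))
    (Lx id d.La j (d.ε j)) (x0 j) (N j) (vpi d.TT d.fm id d.b j (d.ε j))
  len : ∀ i, (N i : ℝ) ≤ Q * D
  cor : ∀ i, ∃ τ, (τ = 0 ∨ τ = N i) ∧ ∀ e ∈ TF d.TT d.fm i, ∀ ρ,
    (0 ≤ cU δ u0 v0 (nd (id i) (d.b e)) ∧ cU δ u0 v0 (nd (id i) (d.b e)) ≤ 2 * ρ) →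
    (0 ≤ cV δ u0 v0 (nd (id i) (d.b e)) ∧ cV δ u0 v0 (nd (id i) (d.b e)) ≤ 2 * ρ) →
    inR (wp 1 (x0 i) τ) ρ (gm (d.ε i) (d.b e))

variable {w h m L R' : ℤ} {S : Finset (ℤ × ℤ)} {O : Out w h} {Cs : Finset (ℤ × ℤ)}
  {x0 : Bool → ℤ × ℤ} {N : Bool → ℤ} {D : ℤ} {Q : ℝ}

theorem rk_inj (d : Dat) (hs : ∀ i, Straight d.TT d.fm d.b d.rk i (d.ε i) (d.h0 i)) :
    ∀ e ∈ d.TT, ∀ e' ∈ d.TT, d.rk e = d.rk e' → e = e' := by
  intro e he e' he' h
  have h1 : d.fm e = d.fm e' := by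
    unfold Dat.rk at h
    cases h2 : d.fm e <;> cases h3 : d.fm e' <;> rw [h2, h3] at h <;> simp only [if_true, if_false,
      Bool.false_eq_true] at h <;> first | rfl | (exfalso; omega)
  have h2 : e ∈ TF d.TT d.fm (d.fm e) := mem_TF.2 ⟨he, rfl⟩
  have h3 : e' ∈ TF d.TT d.fm (d.fm e) := mem_TF.2 ⟨he', h1.symm⟩
  have h4 := (hs (d.fm e)).line e h2
  have h5 := (hs (d.fm e)).line e' h3
  refine (hs (d.fm e)).inj e h2 e' h3 (gm_inj (ε := d.ε (d.fm e)) ?_)
  unfold Dat.rk at h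
  rw [← h1] at h
  refine Prod.ext ?_ ?_ <;> omega

theorem LLL_sub : LLL w h m ⊆ M6e.BL w h m := by
  unfold LLL M6e.BL
  refine union_subset_union ?_ ?_
  · intro e he
    obtain ⟨x, y, rfl⟩ := exists_lt (odd_RT he)
    rw [lt_mem_RT] at he ⊢
    omega
  · intro e he
    obtain ⟨x, y, rfl⟩ := exists_lt (odd_RT he)
    rw [lt_mem_RT] at he ⊢
    omega

theorem LLU_sub : LLU w h m ⊆ M6e.BU w h m := by
  unfold LLU M6e.BU
  refine union_subset_union ?_ ?_
  · intro e he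
    obtain ⟨x, y, rfl⟩ := exists_lt (odd_RT he)
    rw [lt_mem_RT] at he ⊢
    omega
  · intro e he
    obtain ⟨x, y, rfl⟩ := exists_lt (odd_RT he)
    rw [lt_mem_RT] at he ⊢
    omega

theorem surrL {ρ : ℤ} (hρ : ρ ≤ m) (hmw : m < w) (hmh : m < h) (ω : Finset (ℤ × ℤ)) :
    Surr 1 0 0 ρ (LLL w h m) ω := by
  refine surr_of (Or.inl rfl) ?_ ?_ ω
  · intro l hl
    have ho : (l.1 + l.2) % 2 = 1 := by
      unfold LLL at hl
      rcases mem_union.1 hl with h1 | h1 <;> exact odd_RT h1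
    obtain ⟨X, Y, rfl⟩ := exists_lt ho
    unfold LLL at hl
    rw [mem_union, lt_mem_RT, lt_mem_RT] at hl
    rw [cU_low, cV_low]
    omega
  · intro l ho h1 h2 h3 h4
    obtain ⟨X, Y, rfl⟩ := exists_lt ho
    rw [cU_low] at h1 h3
    rw [cV_low] at h2 h4
    unfold LLL
    rw [mem_union, lt_mem_RT, lt_mem_RT]
    omega

theorem surrU {ρ : ℤ} (hρ : ρ ≤ m) (hmw : m < w) (hmh : m < h) (ω : Finset (ℤ × ℤ)) :
    Surr (-1) (w - h + 1) (w + h - 1) ρ (LLU w h m) ω := by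
  refine surr_of (Or.inr rfl) ?_ ?_ ω
  · intro l hl
    have ho : (l.1 + l.2) % 2 = 1 := by
      unfold LLU at hl
      rcases mem_union.1 hl with h1 | h1 <;> exact odd_RT h1
    obtain ⟨X, Y, rfl⟩ := exists_lt ho
    unfold LLU at hl
    rw [mem_union, lt_mem_RT, lt_mem_RT] at hl
    rw [cU_up, cV_up]
    omega
  · intro l ho h1 h2 h3 h4
    obtain ⟨X, Y, rfl⟩ := exists_lt ho
    rw [cU_up] at h1 h3
    rw [cV_up] at h2 h4
    unfold LLU
    rw [mem_union, lt_mem_RT, lt_mem_RT]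
    omega

/-- **The lower environment.** -/
theorem cdatL {hS : S ⊆ RRL h} (G : GeoI w h m L 1) (hO : OFar O L) (hC : MidC w h m Cs)
    (hm : 8 ≤ m) (hW : WG (datL O m L S hS) 1 0 0 x0 N (m / 8) Q) :
    CDat (datL O m L S hS) Cs (LbL w h m) (LLL w h m) true false 1 0 0 m (2 * w) (2 * h) x0 N
      (m / 8) Q := by
  have hmw : m < w := by have := G.mw; omega
  have hmh : m < h := by have := G.mh; omega
  have w2 := O.w2
  refine ⟨⟨mulL G hO hS, cnr_low (by omega) hmw hmh LLL_sub, cnrM_low (by omega) hmw hmh, ?_, ?_,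
    hW.fw, hW.wq, hW.sep, hW.len, by omega, hW.cor⟩, farML G hO hS hC, ?_,
    rk_inj _ fun i => straightL i⟩
  · intro e _
    cases h1 : (datL O m L S hS).fm e
    · exact Or.inr rfl
    · exact Or.inl rfl
  · intro ρ hρ ω
    exact surrL hρ hmw hmh ω
  · intro c hc
    have g1 := G.mw
    have g2 := G.mh
    have g3 := G.mL
    have hw := O.hw
    have hh := O.hh
    refine farL hS (by omega) (by omega) (by omega) (rootFr_of hO (by omega)) le_rfl le_rfl le_rfl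
      (fun i => Subset.refl _) fun g hg => ?_
    have := hC c hc g hg
    unfold RcL
    omega

/-- **The upper environment.** -/
theorem cdatU {hS : S ⊆ RRU w h} (G : GeoI w h m L 1) (hO : OFar O L) (hC : MidC w h m Cs)
    (hm : 8 ≤ m) (hW : WG (datU O m L S hS) (-1) (w - h + 1) (w + h - 1) x0 N (m / 8) Q) :
    CDat (datU O m L S hS) Cs (LbU w h m) (LLU w h m) false true (-1) (w - h + 1) (w + h - 1) m
      (2 * h) (2 * w) x0 N (m / 8) Q := by
  have hmw : m < w := by have := G.mw; omega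
  have hmh : m < h := by have := G.mh; omega
  have w2 := O.w2
  refine ⟨⟨mulU G hO hS, cnr_up hS (by omega) hmw hmh LLU_sub,
    cnrM_up hS (by omega) hmw hmh ?_, ?_, ?_,
    hW.fw, hW.wq, hW.sep, hW.len, by omega, hW.cor⟩, farMU G hO hS hC, ?_,
    rk_inj _ fun i => straightU i⟩
  · unfold WlU
    rw [if_neg Bool.false_ne_true]
    exact mem_union_right _ (mem_insert_self _ _)
  · intro e _
    cases h1 : (datU O m L S hS).fm e
    · exact Or.inl rfl
    · exact Or.inr rfl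
  · intro ρ hρ ω
    exact surrU hρ hmw hmh ω
  · intro c hc
    have g1 := G.mw
    have g2 := G.mh
    have g3 := G.mL
    have hw := O.hw
    have hh := O.hh
    refine farU hS (by omega) (by omega) (by omega) (rootFr_of hO (by omega)) le_rfl le_rfl le_rfl
      (fun i => Subset.refl _) fun g hg => ?_
    have := hC c hc g hg
    unfold RcU
    omega

end Pool.Agent.H39.R45
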