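import Mathlib
import Pool.Agent.H39.R45.FineD
import Pool.Agent.Q1.M6e.FineB
import Pool.Agent.H39.Q1.FlatW

set_option autoImplicit false
open Finset

/-! # The geometry of the walls of the 45 degree rectangles

`xJ`, `NJ` : first inner end and number of the ties; the marked corner is at the end `N`. `wal45`. -/

namespace Pool.Agent.H39.R45

open Pool.Agent.H75.Perc Pool.Agent.H75.TwoArm Pool.Agent.H69.Q1
open Pool.Agent.H75.Four hiding ev
open Pool.Agent.Q1 Pool.Agent.H99.NC Pool.Agent.H49.Perc Pool.Agent.H60.Q1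
open Pool.Agent.H39.Q1 Pool.Agent.H59.Q1 Pool.Agent.Q1.M6e Pool.Agent.H25.Q1.Add
open Pool.Agent.H20.Q1 (Eh CS hf)
open Pool.Agent.H33.Q1 Pool.Agent.H74.R45 Pool.Agent.H13.R45 Pool.Agent.H13.Q1
open Pool.Agent.H64.Q1
open Pool.Agent.H95.R45 (Sc)
open Pool.Agent.H54.R45

/-- first inner end of the ties -/
def xJ (w h : ℤ) (top i : Bool) : ℤ × ℤ :=
  if top = true then (if i = true then (-(w / 2), -(w / 2)) else (2 - h / 2, -1 - h / 2))
  else (if i = true then (1 - h / 2, h / 2 - 1) else (-(w / 2), w / 2))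

/-- index of the last tie -/
def NJ (w h : ℤ) (top i : Bool) : ℤ :=
  if top = true then (if i = true then h / 2 - 1 else w / 2 - 2)
  else (if i = true then h / 2 - 2 else w / 2 - 1)

variable {w h m L R' D : ℤ} {S : Finset (ℤ × ℤ)} {O : Out w h}

/-- the labels near a wall, in the flat coordinates -/
structure WB (L : Finset (ℤ × ℤ)) (x0 : ℤ × ℤ) (N m g0 g1 : ℤ) : Prop where
  mem : ∀ l : ℤ × ℤ, l ∈ L ↔ (l.1 + l.2) % 2 = 1 ∧
    (2 * (x0.1 + x0.2) ≤ l.1 + l.2 ∧ l.1 + l.2 ≤ 2 * (x0.1 + x0.2) + 2 * m) ∧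
      (2 * g1 ≤ l.2 - l.1 ∧ 2 * g0 ≤ -(l.2 - l.1))
  o0 : 0 ≤ -(x0.2 - x0.1) - g0 ∧ -(x0.2 - x0.1) - g0 ≤ 3
  o1 : 0 ≤ (x0.2 - x0.1) - 2 * N - g1 ∧ (x0.2 - x0.1) - 2 * N - g1 ≤ 3

theorem WB.wq {L : Finset (ℤ × ℤ)} {x0 : ℤ × ℤ} {N g0 g1 : ℤ} (h : WB L x0 N m g0 g1)
    (hDN : D ≤ N) (hDm : 2 * D ≤ m) : WallQ L x0 N D := by
  have o0 := h.o0
  have o1 := h.o1
  refine ⟨⟨Or.inr rfl, fun l hl => ((h.mem l).1 hl).1, ?_⟩, hDN, ⟨g0, ?_⟩, ⟨g1, ?_⟩⟩
  · intro t r h1 h2 h3 h4 l hl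
    rw [mem_BRz] at hl
    unfold H60.Q1.wp at hl
    rw [h.mem]
    unfold ht
    simp only at hl
    omega
  · refine ⟨Or.inl ⟨rfl, rfl⟩, ?_, ?_⟩
    · intro l hl
      rw [mem_BRz] at hl
      unfold H60.Q1.wp at hl
      rw [h.mem]
      unfold ht
      simp only at hl
      omega
    · unfold H60.Q1.wp
      simp only
      omega
  · refine ⟨Or.inr ⟨rfl, rfl⟩, ?_, ?_⟩
    · intro l hl
      rw [mem_BRz] at hl
      unfold H60.Q1.wp at hl
      rw [h.mem]
      unfold ht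
      simp only at hl
      omega
    · unfold H60.Q1.wp
      simp only
      omega

/-- separation -/
theorem sep_of {TT : Finset (ℤ × ℤ)} {fm : ℤ × ℤ → Bool} {b : ℤ × ℤ → ℤ × ℤ}
    {La : Bool → Finset (ℤ × ℤ)} {i j : Bool} {ε ε' : Bool × Bool} {x0 x1 : ℤ × ℤ} {N N1 : ℤ}
    (hF : FW TT fm b (La i) i ε x0 N) (hF' : FW TT fm b (La j) j ε' x1 N1)
    (hd : Disjoint (La i) TT) (hd' : Disjoint (La j) TT) (hij : i ≠ j)
    (hb : ∀ ρ1 : ℤ, 1 ≤ ρ1 → ∀ t t' : ℤ, ρ1 ≤ t → t + ρ1 ≤ N → ρ1 ≤ t' → t' + ρ1 ≤ N1 →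
      ∀ l ∈ Fb (H60.Q1.wp 1 x0 t) (ρ1 / 32), ∀ l' ∈ Fb (H60.Q1.wp 1 x1 t') (ρ1 / 32),
      gm ε l - H39.Q1.tc (id i) ≠ gm ε' l' - H39.Q1.tc (id j)) :
    Sep (Lx id La i ε) x0 N (vpi TT fm id b i ε) (Lx id La j ε') x1 N1 (vpi TT fm id b j ε') := by
  intro ρ1 h1 t t' h2 h3 h4 h5
  rw [disjoint_left]
  intro p hp hp'
  obtain ⟨l, hl, rfl⟩ := mem_image.1 hp
  obtain ⟨l', hl', he⟩ := mem_image.1 hp'
  obtain ⟨hl1, hl2⟩ := mem_inter.1 hl
  obtain ⟨hl1', hl2'⟩ := mem_inter.1 hl'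
  rcases hF.cases (co := id) hl1 with ⟨g1, g2⟩ | ⟨e, g1, rfl⟩
  · rw [vpi_odd g1] at he
    rcases hF'.cases (co := id) hl1' with ⟨g3, g4⟩ | ⟨e', g3, rfl⟩
    · rw [vpi_odd g3] at he
      exact hb ρ1 h1 t t' h2 h3 h4 h5 l hl2 l' hl2' he.symm
    · rw [hF'.vpi_tie g3] at he
      unfold Lx at g2
      rw [mem_lm, ← he] at g2
      exact disjoint_left.1 hd g2 (mem_TF.1 g3).1
  · rw [hF.vpi_tie g1] at he
    rcases hF'.cases (co := id) hl1' with ⟨g3, g4⟩ | ⟨e', g3, rfl⟩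
    · rw [vpi_odd g3] at he
      unfold Lx at g4
      rw [mem_lm, he] at g4
      exact disjoint_left.1 hd' g4 (mem_TF.1 g1).1
    · rw [hF'.vpi_tie g3] at he
      have g5 := (mem_TF.1 g1).2
      have g6 := (mem_TF.1 g3).2
      rw [he, g5] at g6
      exact hij g6

theorem sep_symm {L L1 : Finset (ℤ × ℤ)} {x0 x1 : ℤ × ℤ} {N N1 : ℤ} {π π1 : ℤ × ℤ → ℤ × ℤ}
    (h : Sep L x0 N π L1 x1 N1 π1) : Sep L1 x1 N1 π1 L x0 N π :=
  fun ρ1 h1 t t' h2 h3 h4 h5 => (h ρ1 h1 t' t h4 h5 h2 h3).symm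

/-! ### Left wall and floor -/

section low

variable {hS : S ⊆ RRL h}

theorem wlt (_w2 : w % 2 = 0) (h2 : h % 2 = 0) {e : ℤ × ℤ} (he : e ∈ TF (TTL w h) fmL true) :
    ∃ t, (0 ≤ t ∧ t ≤ NJ w h false true) ∧ e = lt (-1, h - 2 - 2 * t) ∧
      gm (false, false) (bL e) = H60.Q1.wp 1 (xJ w h false true) t := by
  obtain ⟨y, rfl, h3, h4, h5, h6⟩ := TFL_t he
  unfold NJ xJ
  rw [if_neg Bool.false_ne_true, if_neg Bool.false_ne_true, if_pos rfl, if_pos rfl]
  refine ⟨h / 2 - 1 - y / 2, by omega, ?_, ?_⟩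
  · rw [show h - 2 - 2 * (h / 2 - 1 - y / 2) = y by omega]
  · rw [h6]
    unfold gm sgb gp H60.Q1.wp
    simp only [Bool.false_eq_true, if_false, Prod.mk.injEq]
    omega

theorem wlf (w2 : w % 2 = 0) {e : ℤ × ℤ} (he : e ∈ TF (TTL w h) fmL false) :
    ∃ t, (0 ≤ t ∧ t ≤ NJ w h false false) ∧ e = lt (w - 2 - 2 * t, -1) ∧
      gm (true, false) (bL e) = H60.Q1.wp 1 (xJ w h false false) t := by
  obtain ⟨x, rfl, h3, h4, h5, h6⟩ := TFL_f he
  unfold NJ xJ
  rw [if_neg Bool.false_ne_true, if_neg Bool.false_ne_true, if_neg Bool.false_ne_true,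
    if_neg Bool.false_ne_true]
  refine ⟨w / 2 - 1 - x / 2, by omega, ?_, ?_⟩
  · rw [show w - 2 - 2 * (w / 2 - 1 - x / 2) = x by omega]
  · rw [h6]
    unfold gm sgb gp H60.Q1.wp
    simp only [Bool.false_eq_true, if_false, if_true, Prod.mk.injEq]
    omega

theorem wlt_mem (h2 : h % 2 = 0) {t : ℤ} (h0 : 0 ≤ t) (h1 : t ≤ NJ w h false true) :
    lt (-1, h - 2 - 2 * t) ∈ TF (TTL w h) fmL true := by
  unfold NJ at h1
  rw [if_neg Bool.false_ne_true, if_pos rfl] at h1
  rw [TF_L_true, mem_TiL]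
  omega

theorem wlf_mem (w2 : w % 2 = 0) {t : ℤ} (h0 : 0 ≤ t) (h1 : t ≤ NJ w h false false) :
    lt (w - 2 - 2 * t, -1) ∈ TF (TTL w h) fmL false := by
  unfold NJ at h1
  rw [if_neg Bool.false_ne_true, if_neg Bool.false_ne_true] at h1
  rw [TF_L_false, mem_TiF]
  omega

theorem fwL (w2 : w % 2 = 0) (h2 : h % 2 = 0) (i : Bool) :
    FW (TTL w h) fmL bL (LaL w h m i) i ((datL O m L S hS).ε i) (xJ w h false i)
      (NJ w h false i) where
  odd := by
    intro l hl
    unfold LaL at hl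
    cases i
    · rw [if_neg Bool.false_ne_true] at hl; exact odd_RT hl
    · rw [if_pos rfl] at hl; exact odd_RT hl
  wall := by
    intro e he
    cases i
    · obtain ⟨t, h3, -, h4⟩ := wlf w2 he; exact ⟨t, h3, h4⟩
    · obtain ⟨t, h3, -, h4⟩ := wlt w2 h2 he; exact ⟨t, h3, h4⟩
  full := by
    intro t h3 h4
    cases i
    · have he := wlf_mem (h := h) w2 h3 h4
      refine ⟨_, he, ?_⟩
      obtain ⟨t', -, h5, h6⟩ := wlf w2 he
      have h7 := lt_inj h5
      simp only [Prod.mk.injEq] at h7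
      rw [show t' = t by omega] at h6
      exact h6
    · have he := wlt_mem (w := w) h2 h3 h4
      refine ⟨_, he, ?_⟩
      obtain ⟨t', -, h5, h6⟩ := wlt w2 h2 he
      have h7 := lt_inj h5
      simp only [Prod.mk.injEq] at h7
      rw [show t' = t by omega] at h6
      exact h6
  inj := (straightL (hS := hS) (O := O) (L := L) (m := m) i).inj

theorem wbL (w2 : w % 2 = 0) (h2 : h % 2 = 0) (i : Bool) :
    ∃ g0 g1, WB (Lx id (LaL w h m) i ((datL O m L S hS).ε i)) (xJ w h false i) (NJ w h false i) m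
      g0 g1 := by
  cases i
  · refine ⟨-(w + 1), 1, ?_, ?_, ?_⟩
    · rintro ⟨a, b⟩
      rw [eL_f]
      unfold Lx LaL xJ
      rw [mem_lm, if_neg Bool.false_ne_true, mem_RT, if_neg Bool.false_ne_true,
        if_neg Bool.false_ne_true]
      unfold gm sgb H39.Q1.tc lt
      simp only [Bool.false_eq_true, if_false, if_true, id]
      constructor
      · rintro ⟨X, Y, h1, h2, h3, h4, h5⟩
        simp only [Prod.mk_sub_mk, Prod.mk.injEq] at h1
        omega
      · rintro ⟨h1, h2, h3⟩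
        refine ⟨(b - a - 3) / 2, (a + b - 1) / 2, ?_, by omega, by omega, by omega, by omega⟩
        simp only [Prod.mk_sub_mk, Prod.mk.injEq]
        omega
    · unfold xJ
      rw [if_neg Bool.false_ne_true, if_neg Bool.false_ne_true]
      simp only
      omega
    · unfold xJ NJ
      rw [if_neg Bool.false_ne_true, if_neg Bool.false_ne_true, if_neg Bool.false_ne_true,
        if_neg Bool.false_ne_true]
      simp only
      omega
  · refine ⟨-h, 0, ?_, ?_, ?_⟩
    · rintro ⟨a, b⟩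
      rw [eL_t]
      unfold Lx LaL xJ
      rw [mem_lm, if_pos rfl, mem_RT, if_neg Bool.false_ne_true, if_pos rfl]
      unfold gm sgb H39.Q1.tc lt
      simp only [Bool.false_eq_true, if_false, if_true, id]
      constructor
      · rintro ⟨X, Y, h1, h2, h3, h4, h5⟩
        simp only [Prod.mk_sub_mk, Prod.mk.injEq] at h1
        omega
      · rintro ⟨h1, h2, h3⟩
        refine ⟨(a + b - 1) / 2, (b - a - 1) / 2, ?_, by omega, by omega, by omega, by omega⟩
        simp only [Prod.mk_sub_mk, Prod.mk.injEq]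
        omega
    · unfold xJ
      rw [if_neg Bool.false_ne_true, if_pos rfl]
      simp only
      omega
    · unfold xJ NJ
      rw [if_neg Bool.false_ne_true, if_pos rfl, if_neg Bool.false_ne_true, if_pos rfl]
      simp only
      omega

theorem corL (w2 : w % 2 = 0) (h2 : h % 2 = 0) (i : Bool) : ∀ e ∈ TF (TTL w h) fmL i, ∀ ρ,
    (0 ≤ cU 1 0 0 (nd (id i) (bL e)) ∧ cU 1 0 0 (nd (id i) (bL e)) ≤ 2 * ρ) →
    (0 ≤ cV 1 0 0 (nd (id i) (bL e)) ∧ cV 1 0 0 (nd (id i) (bL e)) ≤ 2 * ρ) →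
    inR (H60.Q1.wp 1 (xJ w h false i) (NJ w h false i)) ρ (gm ((datL O m L S hS).ε i) (bL e)) := by
  intro e he ρ h3 h4
  cases i
  · obtain ⟨t, ⟨g1, g2⟩, rfl, g4⟩ := wlf w2 he
    have g5 := TFL_f he
    obtain ⟨x, g5, g6, g7, g8, g9⟩ := g5
    have g10 := lt_inj g5
    simp only [Prod.mk.injEq] at g10
    rw [g9, show id false = false from rfl, nU_low (ev_false.2 (by omega))] at h3
    rw [eL_f, g4]
    unfold xJ NJ
    rw [if_neg Bool.false_ne_true, if_neg Bool.false_ne_true, if_neg Bool.false_ne_true,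
      if_neg Bool.false_ne_true]
    unfold NJ at g2
    rw [if_neg Bool.false_ne_true, if_neg Bool.false_ne_true] at g2
    unfold inR inB H60.Q1.wp
    simp only at h3 ⊢
    omega
  · obtain ⟨t, ⟨g1, g2⟩, rfl, g4⟩ := wlt w2 h2 he
    have g5 := TFL_t he
    obtain ⟨x, g5, g6, g7, g8, g9⟩ := g5
    have g10 := lt_inj g5
    simp only [Prod.mk.injEq] at g10
    rw [g9, show id true = true from rfl, nV_low (ev_true.2 (by omega))] at h4
    rw [eL_t, g4]
    unfold xJ NJ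
    rw [if_neg Bool.false_ne_true, if_pos rfl, if_neg Bool.false_ne_true, if_pos rfl]
    unfold NJ at g2
    rw [if_neg Bool.false_ne_true, if_pos rfl] at g2
    unfold inR inB H60.Q1.wp
    simp only at h4 ⊢
    omega

theorem outL (w2 : w % 2 = 0) (h2 : h % 2 = 0) (hR : 1 ≤ R') (i : Bool) :
    ∀ e ∈ TF (TTL w h) fmL i, e ∉ FlJ w h R' false i →
    inR (H60.Q1.wp 1 (xJ w h false i) 0) (R' + 3) (gm ((datL O m L S hS).ε i) (bL e)) ∨
    inR (H60.Q1.wp 1 (xJ w h false i) (NJ w h false i)) (R' + 3)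
      (gm ((datL O m L S hS).ε i) (bL e)) := by
  intro e he hn
  cases i
  · obtain ⟨t, ⟨g1, g2⟩, rfl, g4⟩ := wlf w2 he
    rw [mem_FlJ_LF] at hn
    rw [eL_f, g4]
    unfold xJ NJ
    rw [if_neg Bool.false_ne_true, if_neg Bool.false_ne_true, if_neg Bool.false_ne_true,
      if_neg Bool.false_ne_true]
    unfold NJ at g2
    rw [if_neg Bool.false_ne_true, if_neg Bool.false_ne_true] at g2
    unfold inR inB H60.Q1.wp
    simp only
    omega
  · obtain ⟨t, ⟨g1, g2⟩, rfl, g4⟩ := wlt w2 h2 he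
    rw [mem_FlJ_LL] at hn
    rw [eL_t, g4]
    unfold xJ NJ
    rw [if_neg Bool.false_ne_true, if_pos rfl, if_neg Bool.false_ne_true, if_pos rfl]
    unfold NJ at g2
    rw [if_neg Bool.false_ne_true, if_pos rfl] at g2
    unfold inR inB H60.Q1.wp
    simp only
    omega

theorem sepL (w2 : w % 2 = 0) (h2 : h % 2 = 0)
    (hd : ∀ i, Disjoint (LaL w h m i) (TTL w h)) (i j : Bool) (hij : i ≠ j) :
    Sep (Lx id (LaL w h m) i ((datL O m L S hS).ε i)) (xJ w h false i) (NJ w h false i)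
      (vpi (TTL w h) fmL id bL i ((datL O m L S hS).ε i))
      (Lx id (LaL w h m) j ((datL O m L S hS).ε j)) (xJ w h false j) (NJ w h false j)
      (vpi (TTL w h) fmL id bL j ((datL O m L S hS).ε j)) := by
  have key : Sep (Lx id (LaL w h m) true ((datL O m L S hS).ε true)) (xJ w h false true)
      (NJ w h false true) (vpi (TTL w h) fmL id bL true ((datL O m L S hS).ε true))
      (Lx id (LaL w h m) false ((datL O m L S hS).ε false)) (xJ w h false false)
      (NJ w h false false) (vpi (TTL w h) fmL id bL false ((datL O m L S hS).ε false)) := by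
    refine sep_of (fwL w2 h2 true) (fwL w2 h2 false) (hd _) (hd _) (by decide) ?_
    intro ρ1 h1 t t' h3 h4 h5 h6 l hl l' hl' he
    unfold NJ at h4 h6
    rw [if_neg Bool.false_ne_true, if_pos rfl] at h4
    rw [if_neg Bool.false_ne_true, if_neg Bool.false_ne_true] at h6
    rw [eL_t, eL_f] at he
    unfold Fb xJ H60.Q1.wp at hl hl'
    rw [if_neg Bool.false_ne_true, if_pos rfl, mem_product, mem_Icc, mem_Icc] at hl
    rw [if_neg Bool.false_ne_true, if_neg Bool.false_ne_true, mem_product, mem_Icc, mem_Icc] at hl'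
    unfold gm sgb H39.Q1.tc at he
    simp only [Bool.false_eq_true, if_false, if_true, id, Prod.mk_sub_mk, Prod.mk.injEq] at he hl hl'
    omega
  cases i <;> cases j
  · exact absurd rfl hij
  · exact sep_symm key
  · exact key
  · exact absurd rfl hij

end low

/-! ### Right wall and ceiling -/

section up

variable {hS : S ⊆ RRU w h}

theorem wut (w2 : w % 2 = 0) (h2 : h % 2 = 0) {e : ℤ × ℤ} (he : e ∈ TF (TTU w h) (fmU w) true) :
    ∃ t, (0 ≤ t ∧ t ≤ NJ w h true true) ∧ e = lt (w, 2 * t - 1) ∧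
      gm (true, true) (bU w e) = H60.Q1.wp 1 (xJ w h true true) t := by
  obtain ⟨y, rfl, h3, h4, h5, h6⟩ := TFU_t he
  unfold NJ xJ
  rw [if_pos rfl, if_pos rfl, if_pos rfl, if_pos rfl]
  refine ⟨(y + 1) / 2, by omega, ?_, ?_⟩
  · rw [show 2 * ((y + 1) / 2) - 1 = y by omega]
  · rw [h6]
    unfold gm sgb gp H60.Q1.wp
    simp only [if_true, Prod.mk.injEq]
    omega

theorem wuf (w2 : w % 2 = 0) (h2 : h % 2 = 0) {e : ℤ × ℤ} (he : e ∈ TF (TTU w h) (fmU w) false) :
    ∃ t, (0 ≤ t ∧ t ≤ NJ w h true false) ∧ e = lt (2 * t + 2, h - 1) ∧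
      gm (false, true) (bU w e) = H60.Q1.wp 1 (xJ w h true false) t := by
  obtain ⟨x, rfl, h3, h4, h5, h6⟩ := TFU_f he
  unfold NJ xJ
  rw [if_pos rfl, if_pos rfl, if_neg Bool.false_ne_true, if_neg Bool.false_ne_true]
  refine ⟨x / 2 - 1, by omega, ?_, ?_⟩
  · rw [show 2 * (x / 2 - 1) + 2 = x by omega]
  · rw [h6]
    unfold gm sgb gp H60.Q1.wp
    simp only [Bool.false_eq_true, if_false, if_true, Prod.mk.injEq]
    omega

theorem wut_mem (h2 : h % 2 = 0) {t : ℤ} (h0 : 0 ≤ t) (h1 : t ≤ NJ w h true true) :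
    lt (w, 2 * t - 1) ∈ TF (TTU w h) (fmU w) true := by
  unfold NJ at h1
  rw [if_pos rfl, if_pos rfl] at h1
  rw [TF_U_true, mem_TiR]
  omega

theorem wuf_mem (w2 : w % 2 = 0) {t : ℤ} (h0 : 0 ≤ t) (h1 : t ≤ NJ w h true false) :
    lt (2 * t + 2, h - 1) ∈ TF (TTU w h) (fmU w) false := by
  unfold NJ at h1
  rw [if_pos rfl, if_neg Bool.false_ne_true] at h1
  rw [TF_U_false, mem_TiU]
  omega

theorem fwU (w2 : w % 2 = 0) (h2 : h % 2 = 0) (i : Bool) :
    FW (TTU w h) (fmU w) (bU w) (LaU w h m i) i ((datU O m L S hS).ε i) (xJ w h true i)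
      (NJ w h true i) where
  odd := by
    intro l hl
    unfold LaU at hl
    cases i
    · rw [if_neg Bool.false_ne_true] at hl; exact odd_RT hl
    · rw [if_pos rfl] at hl; exact odd_RT hl
  wall := by
    intro e he
    cases i
    · obtain ⟨t, h3, -, h4⟩ := wuf w2 h2 he; exact ⟨t, h3, h4⟩
    · obtain ⟨t, h3, -, h4⟩ := wut w2 h2 he; exact ⟨t, h3, h4⟩
  full := by
    intro t h3 h4
    cases i
    · have he := wuf_mem (h := h) w2 h3 h4
      refine ⟨_, he, ?_⟩
      obtain ⟨t', -, h5, h6⟩ := wuf w2 h2 he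
      have h7 := lt_inj h5
      simp only [Prod.mk.injEq] at h7
      rw [show t' = t by omega] at h6
      exact h6
    · have he := wut_mem (w := w) h2 h3 h4
      refine ⟨_, he, ?_⟩
      obtain ⟨t', -, h5, h6⟩ := wut w2 h2 he
      have h7 := lt_inj h5
      simp only [Prod.mk.injEq] at h7
      rw [show t' = t by omega] at h6
      exact h6
  inj := (straightU (hS := hS) (O := O) (L := L) (m := m) i).inj

theorem wbU (w2 : w % 2 = 0) (h2 : h % 2 = 0) (i : Bool) :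
    ∃ g0 g1, WB (Lx id (LaU w h m) i ((datU O m L S hS).ε i)) (xJ w h true i) (NJ w h true i) m
      g0 g1 := by
  cases i
  · refine ⟨1, -w - 1, ?_, ?_, ?_⟩
    · rintro ⟨a, b⟩
      rw [eU_f]
      unfold Lx LaU xJ
      rw [mem_lm, if_neg Bool.false_ne_true, mem_RT, if_pos rfl, if_neg Bool.false_ne_true]
      unfold gm sgb H39.Q1.tc lt
      simp only [Bool.false_eq_true, if_false, if_true, id]
      constructor
      · rintro ⟨X, Y, h1, h2, h3, h4, h5⟩
        simp only [Prod.mk_sub_mk, Prod.mk.injEq] at h1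
        omega
      · rintro ⟨h1, h2, h3⟩
        refine ⟨(a - b - 3) / 2, (-b - a - 1) / 2, ?_, by omega, by omega, by omega, by omega⟩
        simp only [Prod.mk_sub_mk, Prod.mk.injEq]
        omega
    · unfold xJ
      rw [if_pos rfl, if_neg Bool.false_ne_true]
      simp only
      omega
    · unfold xJ NJ
      rw [if_pos rfl, if_pos rfl, if_neg Bool.false_ne_true, if_neg Bool.false_ne_true]
      simp only
      omega
  · refine ⟨-1, 1 - h, ?_, ?_, ?_⟩
    · rintro ⟨a, b⟩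
      rw [eU_t]
      unfold Lx LaU xJ
      rw [mem_lm, if_pos rfl, mem_RT, if_pos rfl, if_pos rfl]
      unfold gm sgb H39.Q1.tc lt
      simp only [if_true, id]
      constructor
      · rintro ⟨X, Y, h1, h2, h3, h4, h5⟩
        simp only [Prod.mk_sub_mk, Prod.mk.injEq] at h1
        omega
      · rintro ⟨h1, h2, h3⟩
        refine ⟨(-a - b - 1) / 2, (a - b - 1) / 2, ?_, by omega, by omega, by omega, by omega⟩
        simp only [Prod.mk_sub_mk, Prod.mk.injEq]
        omega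
    · unfold xJ
      rw [if_pos rfl, if_pos rfl]
      simp only
      omega
    · unfold xJ NJ
      rw [if_pos rfl, if_pos rfl, if_pos rfl, if_pos rfl]
      simp only
      omega

theorem corU (w2 : w % 2 = 0) (h2 : h % 2 = 0) (i : Bool) : ∀ e ∈ TF (TTU w h) (fmU w) i, ∀ ρ,
    (0 ≤ cU (-1) (w - h + 1) (w + h - 1) (nd (id i) (bU w e)) ∧
      cU (-1) (w - h + 1) (w + h - 1) (nd (id i) (bU w e)) ≤ 2 * ρ) →
    (0 ≤ cV (-1) (w - h + 1) (w + h - 1) (nd (id i) (bU w e)) ∧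
      cV (-1) (w - h + 1) (w + h - 1) (nd (id i) (bU w e)) ≤ 2 * ρ) →
    inR (H60.Q1.wp 1 (xJ w h true i) (NJ w h true i)) ρ (gm ((datU O m L S hS).ε i) (bU w e)) := by
  intro e he ρ h3 h4
  cases i
  · obtain ⟨t, ⟨g1, g2⟩, rfl, g4⟩ := wuf w2 h2 he
    have g5 := TFU_f he
    obtain ⟨x, g5, g6, g7, g8, g9⟩ := g5
    have g10 := lt_inj g5
    simp only [Prod.mk.injEq] at g10
    rw [g9, show id false = false from rfl, nV_up (ev_false.2 (by omega))] at h4
    rw [eU_f, g4]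
    unfold xJ NJ
    rw [if_pos rfl, if_pos rfl, if_neg Bool.false_ne_true, if_neg Bool.false_ne_true]
    unfold NJ at g2
    rw [if_pos rfl, if_neg Bool.false_ne_true] at g2
    unfold inR inB H60.Q1.wp
    simp only at h4 ⊢
    omega
  · obtain ⟨t, ⟨g1, g2⟩, rfl, g4⟩ := wut w2 h2 he
    have g5 := TFU_t he
    obtain ⟨x, g5, g6, g7, g8, g9⟩ := g5
    have g10 := lt_inj g5
    simp only [Prod.mk.injEq] at g10
    rw [g9, show id true = true from rfl, nU_up (ev_true.2 (by omega))] at h3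
    rw [eU_t, g4]
    unfold xJ NJ
    rw [if_pos rfl, if_pos rfl, if_pos rfl, if_pos rfl]
    unfold NJ at g2
    rw [if_pos rfl, if_pos rfl] at g2
    unfold inR inB H60.Q1.wp
    simp only at h3 ⊢
    omega

theorem outU (w2 : w % 2 = 0) (h2 : h % 2 = 0) (hR : 1 ≤ R') (i : Bool) :
    ∀ e ∈ TF (TTU w h) (fmU w) i, e ∉ FlJ w h R' true i →
    inR (H60.Q1.wp 1 (xJ w h true i) 0) (R' + 3) (gm ((datU O m L S hS).ε i) (bU w e)) ∨
    inR (H60.Q1.wp 1 (xJ w h true i) (NJ w h true i)) (R' + 3)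
      (gm ((datU O m L S hS).ε i) (bU w e)) := by
  intro e he hn
  cases i
  · obtain ⟨t, ⟨g1, g2⟩, rfl, g4⟩ := wuf w2 h2 he
    rw [mem_FlJ_UC] at hn
    rw [eU_f, g4]
    unfold xJ NJ
    rw [if_pos rfl, if_pos rfl, if_neg Bool.false_ne_true, if_neg Bool.false_ne_true]
    unfold NJ at g2
    rw [if_pos rfl, if_neg Bool.false_ne_true] at g2
    unfold inR inB H60.Q1.wp
    simp only
    omega
  · obtain ⟨t, ⟨g1, g2⟩, rfl, g4⟩ := wut w2 h2 he
    rw [mem_FlJ_UR] at hn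
    rw [eU_t, g4]
    unfold xJ NJ
    rw [if_pos rfl, if_pos rfl, if_pos rfl, if_pos rfl]
    unfold NJ at g2
    rw [if_pos rfl, if_pos rfl] at g2
    unfold inR inB H60.Q1.wp
    simp only
    omega

theorem sepU (w2 : w % 2 = 0) (h2 : h % 2 = 0)
    (hd : ∀ i, Disjoint (LaU w h m i) (TTU w h)) (i j : Bool) (hij : i ≠ j) :
    Sep (Lx id (LaU w h m) i ((datU O m L S hS).ε i)) (xJ w h true i) (NJ w h true i)
      (vpi (TTU w h) (fmU w) id (bU w) i ((datU O m L S hS).ε i))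
      (Lx id (LaU w h m) j ((datU O m L S hS).ε j)) (xJ w h true j) (NJ w h true j)
      (vpi (TTU w h) (fmU w) id (bU w) j ((datU O m L S hS).ε j)) := by
  have key : Sep (Lx id (LaU w h m) true ((datU O m L S hS).ε true)) (xJ w h true true)
      (NJ w h true true) (vpi (TTU w h) (fmU w) id (bU w) true ((datU O m L S hS).ε true))
      (Lx id (LaU w h m) false ((datU O m L S hS).ε false)) (xJ w h true false)
      (NJ w h true false) (vpi (TTU w h) (fmU w) id (bU w) false ((datU O m L S hS).ε false)) := by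
    refine sep_of (fwU w2 h2 true) (fwU w2 h2 false) (hd _) (hd _) (by decide) ?_
    intro ρ1 h1 t t' h3 h4 h5 h6 l hl l' hl' he
    unfold NJ at h4 h6
    rw [if_pos rfl, if_pos rfl] at h4
    rw [if_pos rfl, if_neg Bool.false_ne_true] at h6
    rw [eU_t, eU_f] at he
    unfold Fb xJ H60.Q1.wp at hl hl'
    rw [if_pos rfl, if_pos rfl, mem_product, mem_Icc, mem_Icc] at hl
    rw [if_pos rfl, if_neg Bool.false_ne_true, mem_product, mem_Icc, mem_Icc] at hl'
    unfold gm sgb H39.Q1.tc at he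
    simp only [Bool.false_eq_true, if_false, if_true, id, Prod.mk_sub_mk, Prod.mk.injEq] at he hl hl'
    omega
  cases i <;> cases j
  · exact absurd rfl hij
  · exact sep_symm key
  · exact key
  · exact absurd rfl hij

end up

theorem disL (_hm : 0 ≤ m) (i : Bool) : Disjoint (LaL w h m i) (TTL w h) := by
  rw [disjoint_left]
  intro l hl hl'
  have ho : (l.1 + l.2) % 2 = 1 := by
    unfold LaL at hl
    cases i
    · rw [if_neg Bool.false_ne_true] at hl; exact odd_RT hl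
    · rw [if_pos rfl] at hl; exact odd_RT hl
  obtain ⟨X, Y, rfl⟩ := exists_lt ho
  rw [mem_TTL] at hl'
  unfold LaL at hl
  cases i
  · rw [if_neg Bool.false_ne_true, lt_mem_RT] at hl; omega
  · rw [if_pos rfl, lt_mem_RT] at hl; omega

theorem disU (_hm : 0 ≤ m) (i : Bool) : Disjoint (LaU w h m i) (TTU w h) := by
  rw [disjoint_left]
  intro l hl hl'
  have ho : (l.1 + l.2) % 2 = 1 := by
    unfold LaU at hl
    cases i
    · rw [if_neg Bool.false_ne_true] at hl; exact odd_RT hl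
    · rw [if_pos rfl] at hl; exact odd_RT hl
  obtain ⟨X, Y, rfl⟩ := exists_lt ho
  rw [mem_TTU] at hl'
  unfold LaU at hl
  cases i
  · rw [if_neg Bool.false_ne_true, lt_mem_RT] at hl; omega
  · rw [if_pos rfl, lt_mem_RT] at hl; omega

theorem NJ_le (hw : 0 ≤ w) (hh : 0 ≤ h) (top i : Bool) : NJ w h top i ≤ max w h := by
  unfold NJ
  cases top <;> cases i
  · rw [if_neg Bool.false_ne_true, if_neg Bool.false_ne_true]; omega
  · rw [if_neg Bool.false_ne_true, if_pos rfl]; omega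
  · rw [if_pos rfl, if_neg Bool.false_ne_true]; omega
  · rw [if_pos rfl, if_pos rfl]; omega

theorem NJ_ge (hw : 4 * m ≤ w) (hh : 4 * m ≤ h) (top i : Bool) : 2 * m - 2 ≤ NJ w h top i := by
  unfold NJ
  cases top <;> cases i
  · rw [if_neg Bool.false_ne_true, if_neg Bool.false_ne_true]; omega
  · rw [if_neg Bool.false_ne_true, if_pos rfl]; omega
  · rw [if_pos rfl, if_neg Bool.false_ne_true]; omega
  · rw [if_pos rfl, if_pos rfl]; omega

/-- **The geometry of the walls.** -/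
theorem wal45 : Wal45 := by
  intro η hη hη1
  refine ⟨64 / η ^ 2, ⌈1024 / η⌉₊, ?_, ?_⟩
  · rw [le_div_iff₀ (by positivity)]
    nlinarith
  intro R hR w h O hSc top S hS
  have hRr : 1024 / η ≤ R := (Nat.le_ceil _).trans (by exact_mod_cast hR)
  have hRη : 1024 ≤ η * R := by
    rw [div_le_iff₀ hη] at hRr
    linarith
  have G : GeoI w h (mE η R) (LE η R) 1 := geo_of hη hSc le_rfl (by push_cast; linarith)
  have hmw := G.mw
  have hmh := G.mh
  have hm : 8 ≤ mE η R := by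
    unfold mE
    rw [Int.le_floor]
    push_cast
    linarith
  set m := mE η R with hmdef
  have hD : η * R ≤ 64 * ((m / 8 : ℤ) : ℝ) := by
    have g1 : η * R / 4 < m + 1 := by rw [hmdef]; unfold mE; exact Int.lt_floor_add_one _
    have g2 : m ≤ 8 * (m / 8) + 7 := by omega
    have g3 : (m : ℝ) ≤ 8 * ((m / 8 : ℤ) : ℝ) + 7 := by exact_mod_cast g2
    linarith
  have w2 := O.w2
  have h2 := O.h2
  have hlen : ∀ i, (NJ w h top i : ℝ) ≤ 64 / η ^ 2 * ((m / 8 : ℤ) : ℝ) := by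
    intro i
    have g1 : NJ w h top i ≤ max w h := NJ_le (by omega) (by omega) top i
    have g2 : (NJ w h top i : ℝ) ≤ max (w : ℝ) (h : ℝ) := by
      have : (NJ w h top i : ℝ) ≤ ((max w h : ℤ) : ℝ) := by exact_mod_cast g1
      push_cast at this
      exact this
    refine (g2.trans (max_le hSc.w2 hSc.h2)).trans ?_
    rw [div_mul_eq_mul_div, div_le_div_iff₀ hη (by positivity)]
    nlinarith
  refine ⟨xJ w h top, NJ w h top, ?_, ?_⟩
  · cases top
    · refine ⟨fun i => fwL w2 h2 i, fun i => ?_, fun i j hij => ?_, hlen, fun i => ?_⟩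
      · obtain ⟨g0, g1, h3⟩ := wbL (O := O) (S := S) (m := m) (L := LE η R) (hS := hS) w2 h2 i
        have := NJ_ge hmw hmh false i
        exact h3.wq (by omega) (by omega)
      · exact sepL w2 h2 (disL (by omega)) i j hij
      · exact ⟨_, Or.inr rfl, corL (O := O) (S := S) (m := m) (L := LE η R) (hS := hS) w2 h2 i⟩
    · refine ⟨fun i => fwU w2 h2 i, fun i => ?_, fun i j hij => ?_, hlen, fun i => ?_⟩
      · obtain ⟨g0, g1, h3⟩ := wbU (O := O) (S := S) (m := m) (L := LE η R) (hS := hS) w2 h2 i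
        have := NJ_ge hmw hmh true i
        exact h3.wq (by omega) (by omega)
      · exact sepU w2 h2 (disU (by omega)) i j hij
      · exact ⟨_, Or.inr rfl, corU (O := O) (S := S) (m := m) (L := LE η R) (hS := hS) w2 h2 i⟩
  · intro R' hR'
    cases top
    · exact fun i => outL (O := O) (S := S) (m := m) (L := LE η R) (hS := hS) w2 h2 hR' i
    · exact fun i => outU (O := O) (S := S) (m := m) (L := LE η R) (hS := hS) w2 h2 hR' i

end Pool.Agent.H39.R45
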